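import Pool.Agent.KS6_49.MS.Compl
import Pool.Agent.KS6_49.L8.H688R2.MSR.PolyM
import Pool.Agent.KS6_49.L8.H601R2.PP
import Pool.Agent.KS6_49.L8.H614R2.DPO.TP1
import Pool.Agent.KS6_49.L8.H614R2.DPO.TG2

set_option autoImplicit false

/-!
# The algorithm runs in polynomial time, given a pad for the patterns
-/

namespace Pool.Agent.KS6_49.MS

open Pool.Agent.NPC
open Pool.Agent.NPC.H628F (p_take p_enum)
open Pool.Agent.H628R2.Forb (enum)
open Pool.Agent.H688R2.MSR (blk lev levs levs_head ranks p_ranks p_levs p_blk p_rangeLen)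
open Pool.Agent.H614R2.DPO (reachG mem_reachG poly_reachG)
open Pool.Agent.R553.HP (Rch)

variable {α : Type} [TEnc α]

theorem p_trip {M N : α → ℕ} (hM : UPoly M) (hN : UPoly N) :
    Poly (fun a => trip (M a) (N a)) := by
  unfold trip
  refine Poly.flatMap (F := fun a i => (List.range (N a)).flatMap
    (fun v => [(i, v, true), (i, v, false)])) hM.range ?_
  refine Poly.flatMap (F := fun (x : α × ℕ) v => [(x.2, v, true), (x.2, v, false)])
    (hN.range.comp (by fun_prop)) ?_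
  fun_prop

theorem p_ng {x : α → ℕ × ℕ × Bool} (hx : Poly x) : Poly (fun a => ng (x a)) := by
  unfold ng; fun_prop

theorem p_un {x : α → ℕ × ℕ × Bool} (hx : Poly x) : Poly (fun a => un (x a)) := by
  unfold un
  exact PP.ite (PP.eq (by fun_prop) (by fun_prop)) hx (by fun_prop)

theorem pp_okl {N : α → ℕ} {x : α → ℕ × ℕ × Bool} (hN : Poly N) (hx : Poly x) :
    PP (fun a => Okl (N a) (x a)) := by
  unfold Okl
  refine PP.congr (p := fun a => ((x a).2.2 = true ∧ (x a).2.1 < N a) ∨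
    ((x a).2.2 = false ∧ 1 ≤ (x a).2.1)) ?_ fun a => ?_
  · exact PP.or (PP.and (PP.eq (by fun_prop) (by fun_prop)) (PP.lt (by fun_prop) hN))
      (PP.and (PP.eq (by fun_prop) (by fun_prop)) (PP.le (by fun_prop) (by fun_prop)))
  · cases (x a).2.2 <;> simp

theorem pp_imp {N : α → ℕ} {E : α → ℕ × ℕ × Bool → ℕ × ℕ × Bool → Prop}
    {x y : α → ℕ × ℕ × Bool} (hN : Poly N)
    (hE : PP (fun p : α × (ℕ × ℕ × Bool) × (ℕ × ℕ × Bool) => E p.1 p.2.1 p.2.2))
    (hx : Poly x) (hy : Poly y) : PP (fun a => Imp (N a) (E a) (x a) (y a)) := by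
  have h1 := p_ng hy
  have h2 := p_un hx
  have h3 := p_un h1
  have h4 := p_ng hx
  have h5 : Poly (fun a => (x a).2.1) := by fun_prop
  have h6 : Poly (fun a => (x a).2.2) := by fun_prop
  unfold Imp
  refine PP.or (PP.and (pp_okl hN hx) (PP.and (pp_okl hN h1) (PP.or ?_ ?_))) (PP.or ?_ ?_)
  · exact hE.comp (Poly.pair Poly.id (Poly.pair h2 h3))
  · exact hE.comp (Poly.pair Poly.id (Poly.pair h3 h2))
  · exact PP.and (PP.eq h5 (NPC.Poly.const 0)) (PP.and (PP.eq h6 (NPC.Poly.const false)) (PP.eq hy h4))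
  · exact PP.and (PP.eq h5 hN) (PP.and (PP.eq h6 (NPC.Poly.const true)) (PP.eq hy h4))

theorem pp_consistent {M N : α → ℕ} {E : α → ℕ × ℕ × Bool → ℕ × ℕ × Bool → Prop}
    (hM : UPoly M) (hN : UPoly N)
    (hE : PP (fun p : α × (ℕ × ℕ × Bool) × (ℕ × ℕ × Bool) => E p.1 p.2.1 p.2.2)) :
    PP (fun a => Consistent (M a) (N a) (E a)) := by
  classical
  have hL : Poly (fun a => lits (M a) (N a)) := p_trip hM (UPoly.add hN (UPoly.const 1))
  have hI : Poly (fun p : α × (ℕ × ℕ × Bool) × (ℕ × ℕ × Bool) =>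
      decide (Imp (N p.1) (E p.1) p.2.1 p.2.2)) := by
    refine PP.dec ?_
    refine pp_imp (α := α × (ℕ × ℕ × Bool) × (ℕ × ℕ × Bool)) (N := fun p => N p.1)
      (E := fun p => E p.1) (x := fun p => p.2.1) (y := fun p => p.2.2)
      (hN.toPoly.comp (by fun_prop)) ?_ (by fun_prop) (by fun_prop)
    exact hE.comp (f := fun q : (α × (ℕ × ℕ × Bool) × (ℕ × ℕ × Bool)) ×
      (ℕ × ℕ × Bool) × (ℕ × ℕ × Bool) => (q.1.1, q.2.1, q.2.2)) (by fun_prop)
  have key : PP (fun a => ∀ x ∈ lits (M a) (N a),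
      ¬ (ng x ∈ reachG (fun u v => decide (Imp (N a) (E a) u v)) (lits (M a) (N a)) x ∧
        x ∈ reachG (fun u v => decide (Imp (N a) (E a) u v)) (lits (M a) (N a)) (ng x))) := by
    have f1 : Poly (fun x : α × (ℕ × ℕ × Bool) => x.1) := by fun_prop
    have f2 : Poly (fun x : α × (ℕ × ℕ × Bool) => x.2) := by fun_prop
    have f3 : Poly (fun x : α × (ℕ × ℕ × Bool) => ng x.2) := p_ng f2
    have f4 : Poly (fun p : (α × (ℕ × ℕ × Bool)) × (ℕ × ℕ × Bool) × (ℕ × ℕ × Bool) =>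
        decide (Imp (N p.1.1) (E p.1.1) p.2.1 p.2.2)) :=
      hI.comp (f := fun p : (α × (ℕ × ℕ × Bool)) × (ℕ × ℕ × Bool) × (ℕ × ℕ × Bool) =>
        (p.1.1, p.2.1, p.2.2)) (by fun_prop)
    refine PP.ball (r := fun a x =>
      ¬ (ng x ∈ reachG (fun u v => decide (Imp (N a) (E a) u v)) (lits (M a) (N a)) x ∧
        x ∈ reachG (fun u v => decide (Imp (N a) (E a) u v)) (lits (M a) (N a)) (ng x))) hL
      (PP.not (PP.and (PP.mem f3 ?_) (PP.mem f2 ?_)))
    · exact poly_reachG (R := fun (x : α × (ℕ × ℕ × Bool)) u v =>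
        decide (Imp (N x.1) (E x.1) u v)) (S := fun x => lits (M x.1) (N x.1))
        (x := fun x => x.2) f4 (hL.comp f1) f2
    · exact poly_reachG (R := fun (x : α × (ℕ × ℕ × Bool)) u v =>
        decide (Imp (N x.1) (E x.1) u v)) (S := fun x => lits (M x.1) (N x.1))
        (x := fun x => ng x.2) f4 (hL.comp f1) f3
  refine PP.congr key fun a => ?_
  unfold Consistent Rch
  refine forall₂_congr fun x hx => ?_
  rw [mem_reachG, mem_reachG]
  simp only [decide_eq_true_eq, hx, ng_mem x hx, true_and]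

/-! ### The points -/

theorem p_rc {G : α → List (ℕ × Bool)} (hG : Poly G) : Poly (fun a => rc (G a)) := by
  unfold rc flip; fun_prop

theorem p_pl {G H : α → List (ℕ × Bool)} (hG : Poly G) (hH : Poly H) :
    Poly (fun a => pl (G a) (H a)) := by
  unfold pl; fun_prop

theorem p_sp {G H : α → List (ℕ × Bool)} (hG : Poly G) (hH : Poly H) :
    Poly (fun a => sp (G a) (H a)) := by
  have := p_pl hG hH
  unfold sp; fun_prop

theorem p_xsL {G H : α → List (ℕ × Bool)} (hG : Poly G) (hH : Poly H) :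
    Poly (fun a => xsL (G a) (H a)) := by
  have h1 := p_pl hG hH
  have h2 := p_pl hG (p_rc hH)
  unfold xsL; fun_prop

theorem p_yyL {G H : α → List (ℕ × Bool)} (hG : Poly G) (hH : Poly H) :
    Poly (fun a => yyL (G a) (H a)) := by
  have h1 := p_pl hG hH
  have h2 := p_pl hG (p_rc hH)
  unfold yyL; fun_prop

theorem p_clL {G H : α → List (ℕ × Bool)} {k : α → ℕ} (hG : Poly G) (hH : Poly H)
    (hk : UPoly k) : Poly (fun a => clL (G a) (H a) (k a)) := by
  have h1 := p_ranks (p_sp hG hH) hk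
  have h2 := p_ranks (p_sp hG (p_rc hH)) hk
  unfold clL; fun_prop

theorem p_lev {ys : α → List ℕ} {K : α → ℕ} (hys : Poly ys) (hK : UPoly K) :
    Poly (fun a => lev (ys a) (K a)) := by
  have h1 : Poly (fun a => (levs (ys a) (K a)).head?.getD []) :=
    Poly.optGetD (Poly.head? (p_levs hys hK)) (NPC.Poly.const [])
  refine h1.congr fun a => ?_
  rw [← levs_head]
  cases levs (ys a) (K a) <;> rfl

/-! ### The patterns -/

theorem p_eb {ls ρ : α → List ℕ} {b : α → ℕ} (hls : Poly ls) (hρ : Poly ρ) (hb : Poly b) :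
    Poly (fun a => eb (ls a) (ρ a) (b a)) := by
  have h1 : Poly (fun a => ((ls a).take (b a)).sum) := Poly.sum (p_take hls hb)
  unfold eb; fun_prop

theorem p_sg {ls π ρ : α → List ℕ} (hls : Poly ls) (hπ : Poly π) (hρ : Poly ρ) :
    Poly (fun a => sg (ls a) (π a) (ρ a)) := by
  unfold sg
  have f1 : Poly (fun x : α × ℕ => x.1) := Poly.fst Poly.id
  have f2 : Poly (fun x : α × ℕ => x.2) := Poly.snd Poly.id
  have h1 : Poly (fun x : α × ℕ => blk (ls x.1) (ρ x.1).length x.2) :=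
    p_blk (hls.comp f1) (hρ.comp f1) f2
  have h2 : Poly (fun x : α × ℕ => eb (ls x.1) (ρ x.1) x.2) := p_eb (hls.comp f1) (hρ.comp f1) f2
  exact Poly.flatMap (F := fun a b => if eb (ls a) (ρ a) b = true then
    (blk (ls a) (ρ a).length b).reverse else blk (ls a) (ρ a).length b) hπ
    (PP.ite (PP.eq h2 (NPC.Poly.const true)) (Poly.reverse h1) h1)

theorem p_cns {ls π ρ : α → List ℕ} (hls : Poly ls) (hπ : Poly π) (hρ : Poly ρ) :
    Poly (fun a => cns (ls a) (π a) (ρ a)) :=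
  Poly.zip (p_sg hls hπ hρ) (Poly.tail (p_sg hls hπ hρ))

theorem pp_valid {ls π ρ : α → List ℕ} {k : α → ℕ} (hk : Poly k) (hls : Poly ls) (hπ : Poly π)
    (hρ : Poly ρ) : PP (fun a => Valid (k a) (ls a) (π a) (ρ a)) := by
  unfold Valid
  have f1 : Poly (fun x : α × ℕ => x.1) := Poly.fst Poly.id
  have f2 : Poly (fun x : α × ℕ => x.2) := Poly.snd Poly.id
  refine PP.and ?_ (PP.and ?_ (PP.and ?_ (PP.and ?_ (PP.and ?_ ?_))))
  · exact PP.ball (r := fun _ l => 2 ≤ l) hls (PP.le (NPC.Poly.const 2) f2)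
  · exact PP.eq (Poly.sum hls) (Poly.length hρ)
  · exact PP.le hk (Poly.length hρ)
  · exact PP.eq (Poly.length hπ) (Poly.length hls)
  · exact PP.ball (l := fun a => List.range (ls a).length) (r := fun a b => b ∈ π a)
      (p_rangeLen hls) (PP.mem f2 (hπ.comp f1))
  · refine PP.ball (l := fun a => List.range (ls a).length) (r := fun a b =>
      ∀ i ∈ blk (ls a) (ρ a).length b, decide ((ρ a).getD i 0 % 2 = 1) = eb (ls a) (ρ a) b)
      (p_rangeLen hls) ?_
    refine PP.ball (l := fun x : α × ℕ => blk (ls x.1) (ρ x.1).length x.2) (r := fun x i =>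
      decide ((ρ x.1).getD i 0 % 2 = 1) = eb (ls x.1) (ρ x.1) x.2)
      (p_blk (hls.comp f1) (hρ.comp f1) f2) ?_
    have f3 : Poly (fun x : (α × ℕ) × ℕ => x.1.1) := by fun_prop
    have h1 : Poly (fun x : (α × ℕ) × ℕ => ρ x.1.1) := hρ.comp f3
    refine PP.eq ?_ (p_eb (hls.comp f3) h1 (by fun_prop))
    fun_prop

theorem pp_ex {xs yy cl ρ : α → List ℕ} {C : α → List (ℕ × ℕ)} {u v : α → ℕ × ℕ × Bool}
    (hxs : Poly xs) (hyy : Poly yy) (hcl : Poly cl) (hρ : Poly ρ) (hC : Poly C) (hu : Poly u)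
    (hv : Poly v) : PP (fun a => Ex (xs a) (yy a) (cl a) (C a) (ρ a) (u a) (v a)) := by
  have u1 : Poly (fun a => (u a).1) := by fun_prop
  have u2 : Poly (fun a => (u a).2.1) := by fun_prop
  have u3 : Poly (fun a => (u a).2.2) := by fun_prop
  have v1 : Poly (fun a => (v a).1) := by fun_prop
  have v2 : Poly (fun a => (v a).2.1) := by fun_prop
  have v3 : Poly (fun a => (v a).2.2) := by fun_prop
  have cu : Poly (fun a => (cl a).getD (u a).2.1 0) := Poly.getD hcl u2 (NPC.Poly.const 0)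
  have cv : Poly (fun a => (cl a).getD (v a).2.1 0) := Poly.getD hcl v2 (NPC.Poly.const 0)
  have xu : Poly (fun a => (xs a).getD (u a).2.1 0) := Poly.getD hxs u2 (NPC.Poly.const 0)
  have xv : Poly (fun a => (xs a).getD (v a).2.1 0) := Poly.getD hxs v2 (NPC.Poly.const 0)
  have yu : Poly (fun a => (yy a).getD (u a).2.1 0) := Poly.getD hyy u2 (NPC.Poly.const 0)
  have yv : Poly (fun a => (yy a).getD (v a).2.1 0) := Poly.getD hyy v2 (NPC.Poly.const 0)
  have ru : Poly (fun a => (ρ a).getD (u a).1 0) := Poly.getD hρ u1 (NPC.Poly.const 0)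
  have rv : Poly (fun a => (ρ a).getD (v a).1 0) := Poly.getD hρ v1 (NPC.Poly.const 0)
  unfold Ex
  refine PP.or ?_ (PP.or ?_ ?_)
  · exact PP.and (PP.eq u1 v1) (PP.and (PP.eq u2 v2) (PP.and (PP.eq u3 (NPC.Poly.const true))
      (PP.and (PP.eq v3 (NPC.Poly.const false)) (PP.ne cu ru))))
  · exact PP.and (PP.eq v1 u1.succ) (PP.and (PP.eq cu ru) (PP.and (PP.eq cv rv)
      (PP.and (PP.le xv xu) (PP.and (PP.eq u3 (NPC.Poly.const true)) (PP.eq v3 (NPC.Poly.const false))))))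
  · exact PP.and (PP.mem (Poly.pair u1 v1) hC) (PP.and (PP.eq cu ru) (PP.and (PP.eq cv rv)
      (PP.and (PP.le yv yu) (PP.and (PP.eq u3 (by fun_prop)) (PP.eq v3 (by fun_prop))))))

/-! ### The whole test -/

/-- the test -/
def Test (G₁ G₂ : List (ℕ × Bool)) (k : ℕ) : Prop :=
  lev (sp G₁ G₂) (k + 1) ≠ [] ∨ (lev (sp G₁ (rc G₂)) (k + 1) ≠ [] ∨
    ∃ ls ∈ enum (List.range (k + 2)) (k + 1), ∃ π ∈ enum (List.range (k + 2)) (k + 1),
      ∃ ρ ∈ enum (List.range (2 * k + 4)) (k + 1), Valid k ls π ρ ∧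
        Consistent ρ.length (clL G₁ G₂ k).length
          (Ex (xsL G₁ G₂) (yyL G₁ G₂) (clL G₁ G₂ k) (cns ls π ρ) ρ))

theorem test_iff (G₁ G₂ : List (ℕ × Bool)) (k : ℕ) :
    Test G₁ G₂ k ↔ SignedStripRecovery G₁ G₂ k := by
  unfold Test
  by_cases hA : lev (sp G₁ G₂) (k + 1) = []
  · by_cases hB : lev (sp G₁ (rc G₂)) (k + 1) = []
    · constructor
      · rintro (h | h | ⟨ls, -, π, -, ρ, -, hv, h⟩)
        · exact absurd hA h
        · exact absurd hB h
        · obtain ⟨t, ht⟩ := (psol_iff (mono_data hA hB) (fun c hc => mem_cns hc)).1 h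
          exact sound_pattern hv ht
      · intro h
        obtain ⟨ls, h1, π, h2, ρ, h3, hv, h4⟩ := complete h hA hB
        exact Or.inr (Or.inr ⟨ls, h1, π, h2, ρ, h3, hv,
          (psol_iff (mono_data hA hB) (fun c hc => mem_cns hc)).2 h4⟩)
    · obtain ⟨x, hx⟩ := List.exists_mem_of_ne_nil _ hB
      exact ⟨fun _ => sound_reversed hx, fun _ => Or.inr (Or.inl hB)⟩
  · obtain ⟨x, hx⟩ := List.exists_mem_of_ne_nil _ hA
    exact ⟨fun _ => sound_direct hx, fun _ => Or.inl hA⟩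

theorem pp_test {G₁ G₂ : α → List (ℕ × Bool)} {k N : α → ℕ} (h₁ : Poly G₁) (h₂ : Poly G₂)
    (hk : UPoly k) (hN : UPoly N) (hb : ∀ a, (2 * k a + 5) ^ (k a + 1) ≤ N a) :
    PP (fun a => Test (G₁ a) (G₂ a) (k a)) := by
  have hk1 : UPoly (fun a => k a + 1) := UPoly.add hk (UPoly.const 1)
  have hk2 : UPoly (fun a => k a + 2) := UPoly.add hk (UPoly.const 2)
  have hk4 : UPoly (fun a => 2 * k a + 4) :=
    UPoly.add (UPoly.mul (UPoly.const 2) hk) (UPoly.const 4)
  have hE : Poly (fun a => enum (List.range (k a + 2)) (k a + 1)) :=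
    p_enum hk2.range hk1 hN (fun a => by
      rw [List.length_range]
      exact (Nat.pow_le_pow_left (by omega) _).trans (hb a))
  have hE' : Poly (fun a => enum (List.range (2 * k a + 4)) (k a + 1)) :=
    p_enum hk4.range hk1 hN (fun a => by
      rw [List.length_range]
      exact hb a)
  have hxs := p_xsL h₁ h₂
  have hyy := p_yyL h₁ h₂
  have hcl := p_clL h₁ h₂ hk
  unfold Test
  refine PP.or (PP.ne (p_lev (p_sp h₁ h₂) hk1) (NPC.Poly.const [])) (PP.or
    (PP.ne (p_lev (p_sp h₁ (p_rc h₂)) hk1) (NPC.Poly.const [])) ?_)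
  refine PP.bex (r := fun a ls => ∃ π ∈ enum (List.range (k a + 2)) (k a + 1),
      ∃ ρ ∈ enum (List.range (2 * k a + 4)) (k a + 1), Valid (k a) ls π ρ ∧
        Consistent ρ.length (clL (G₁ a) (G₂ a) (k a)).length
          (Ex (xsL (G₁ a) (G₂ a)) (yyL (G₁ a) (G₂ a)) (clL (G₁ a) (G₂ a) (k a))
            (cns ls π ρ) ρ)) hE ?_
  refine PP.bex (l := fun x : α × List ℕ => enum (List.range (k x.1 + 2)) (k x.1 + 1))
    (r := fun x π => ∃ ρ ∈ enum (List.range (2 * k x.1 + 4)) (k x.1 + 1), Valid (k x.1) x.2 π ρ ∧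
        Consistent ρ.length (clL (G₁ x.1) (G₂ x.1) (k x.1)).length
          (Ex (xsL (G₁ x.1) (G₂ x.1)) (yyL (G₁ x.1) (G₂ x.1)) (clL (G₁ x.1) (G₂ x.1) (k x.1))
            (cns x.2 π ρ) ρ)) (hE.comp (by fun_prop)) ?_
  refine PP.bex (l := fun x : (α × List ℕ) × List ℕ =>
      enum (List.range (2 * k x.1.1 + 4)) (k x.1.1 + 1))
    (r := fun x ρ => Valid (k x.1.1) x.1.2 x.2 ρ ∧
        Consistent ρ.length (clL (G₁ x.1.1) (G₂ x.1.1) (k x.1.1)).length
          (Ex (xsL (G₁ x.1.1) (G₂ x.1.1)) (yyL (G₁ x.1.1) (G₂ x.1.1))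
            (clL (G₁ x.1.1) (G₂ x.1.1) (k x.1.1)) (cns x.1.2 x.2 ρ) ρ))
    (hE'.comp (by fun_prop)) ?_
  have f : Poly (fun x : ((α × List ℕ) × List ℕ) × List ℕ => x.1.1.1) := by fun_prop
  have fl : Poly (fun x : ((α × List ℕ) × List ℕ) × List ℕ => x.1.1.2) := by fun_prop
  have fp : Poly (fun x : ((α × List ℕ) × List ℕ) × List ℕ => x.1.2) := by fun_prop
  have fr : Poly (fun x : ((α × List ℕ) × List ℕ) × List ℕ => x.2) := by fun_prop
  refine PP.and (pp_valid (hk.toPoly.comp f) fl fp fr) ?_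
  refine pp_consistent (M := fun x : ((α × List ℕ) × List ℕ) × List ℕ => x.2.length)
    (N := fun x => (clL (G₁ x.1.1.1) (G₂ x.1.1.1) (k x.1.1.1)).length)
    (E := fun x => Ex (xsL (G₁ x.1.1.1) (G₂ x.1.1.1)) (yyL (G₁ x.1.1.1) (G₂ x.1.1.1))
            (clL (G₁ x.1.1.1) (G₂ x.1.1.1) (k x.1.1.1)) (cns x.1.1.2 x.1.2 x.2) x.2)
    (UPoly.length fr) (UPoly.length (hcl.comp f)) ?_
  have g : Poly (fun p : (((α × List ℕ) × List ℕ) × List ℕ) × (ℕ × ℕ × Bool) × (ℕ × ℕ × Bool) =>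
    p.1) := by fun_prop
  have g1 : Poly (fun p : (((α × List ℕ) × List ℕ) × List ℕ) × (ℕ × ℕ × Bool) ×
    (ℕ × ℕ × Bool) => p.2.1) := by fun_prop
  have g2 : Poly (fun p : (((α × List ℕ) × List ℕ) × List ℕ) × (ℕ × ℕ × Bool) ×
    (ℕ × ℕ × Bool) => p.2.2) := by fun_prop
  exact pp_ex ((hxs.comp f).comp g) ((hyy.comp f).comp g) ((hcl.comp f).comp g) (fr.comp g)
    ((p_cns fl fp fr).comp g) g1 g2

end Pool.Agent.KS6_49.MS
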