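import Pool.Agent.KS6_49.MS.Sound

set_option autoImplicit false

/-!
# Completeness: a solution of strip recovery gives a solution of a pattern
-/

namespace Pool.Agent.KS6_49.MS

open Pool.Agent.H688R2.MSR (blk blk_eq flatMap_blk zip_tail_iff perm_map lev rk_lt ranks ranks_getD)
open Pool.Agent.H628R2.Forb (enum mem_enum)

/-- shorten a solution -/
theorem trim {G₁ G₂ : List (ℕ × Bool)} {k : ℕ} : ∀ N : ℕ,
    ∀ P P' : List (List (ℕ × Bool) × Bool),
    (∀ x ∈ P, 2 ≤ x.1.length) → P'.Perm P → (P.flatMap Prod.fst).Sublist G₁ →
    (P'.flatMap place).Sublist G₂ → k ≤ (P.flatMap Prod.fst).length →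
    (P.flatMap Prod.fst).length ≤ N →
    ∃ P P' : List (List (ℕ × Bool) × Bool), (∀ x ∈ P, 2 ≤ x.1.length) ∧ P'.Perm P ∧
      (P.flatMap Prod.fst).Sublist G₁ ∧ (P'.flatMap place).Sublist G₂ ∧
      k ≤ (P.flatMap Prod.fst).length ∧ (P.flatMap Prod.fst).length ≤ k + 1 := by
  intro N
  induction N with
  | zero =>
    intro B B' h1 h2 h3 h4 h5 h6
    exact ⟨B, B', h1, h2, h3, h4, h5, by omega⟩
  | succ N ih =>
    intro B B' h1 h2 h3 h4 h5 h6
    by_cases hk : (B.flatMap Prod.fst).length ≤ k + 1
    · exact ⟨B, B', h1, h2, h3, h4, h5, hk⟩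
    · cases B with
      | nil => simp at hk
      | cons b R =>
        have hb : b ∈ B' := h2.mem_iff.2 (by simp)
        obtain ⟨L, R', rfl⟩ := List.append_of_mem hb
        have hp : (L ++ R').Perm R := by
          have : (b :: (L ++ R')).Perm (b :: R) := (List.perm_middle.symm).trans h2
          exact this.cons_inv
        have hb2 := h1 b (by simp)
        have hlen : ((b :: R).flatMap Prod.fst).length =
            b.1.length + (R.flatMap Prod.fst).length := by
          rw [List.flatMap_cons, List.length_append]
        rcases Nat.lt_or_ge b.1.length 3 with hb3 | hb3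
        · refine ih R (L ++ R') (fun c hc => h1 c (by simp [hc])) hp ?_ ?_ (by omega) (by omega)
          · refine List.Sublist.trans ?_ h3
            rw [List.flatMap_cons]; exact List.sublist_append_right _ _
          · refine List.Sublist.trans ?_ h4
            rw [List.flatMap_append, List.flatMap_append, List.flatMap_cons]
            exact List.Sublist.append (List.Sublist.refl _) (List.sublist_append_right _ _)
        · have htl : b.1.tail.Sublist b.1 := List.tail_sublist b.1
          have htlen : b.1.tail.length = b.1.length - 1 := List.length_tail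
          have hpl : (place (b.1.tail, b.2)).Sublist (place b) := by
            unfold place
            simp only
            split_ifs
            · exact rc_sublist htl
            · exact htl
          refine ih ((b.1.tail, b.2) :: R) (L ++ (b.1.tail, b.2) :: R') ?_ ?_ ?_ ?_ ?_ ?_
          · intro c hc
            rcases List.mem_cons.1 hc with rfl | hc
            · simp only; omega
            · exact h1 c (by simp [hc])
          · exact List.perm_middle.trans (hp.cons _)
          · refine List.Sublist.trans ?_ h3
            rw [List.flatMap_cons, List.flatMap_cons]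
            exact List.Sublist.append htl (List.Sublist.refl _)
          · refine List.Sublist.trans ?_ h4
            rw [List.flatMap_append, List.flatMap_append, List.flatMap_cons, List.flatMap_cons]
            exact List.Sublist.append (List.Sublist.refl _)
              (List.Sublist.append hpl (List.Sublist.refl _))
          · rw [List.flatMap_cons, List.length_append, htlen]; omega
          · rw [List.flatMap_cons, List.length_append, htlen]; omega

/-- the positions of a subsequence -/
theorem pos_of_sub {α : Type} {S G : List α} (d : α) (h : S.Sublist G) : ∃ q : List ℕ,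
    q.length = S.length ∧ q.Pairwise (· < ·) ∧ (∀ i < S.length, q.getD i 0 < G.length) ∧
      ∀ i < S.length, G.getD (q.getD i 0) d = S.getD i d := by
  obtain ⟨is, h1, h2⟩ := List.sublist_eq_map_getElem h
  have hl : is.length = S.length := by rw [h1, List.length_map]
  have hq : ∀ i (hi : i < S.length), (is.map Fin.val).getD i 0 = (is[i]'(by omega) : Fin _).val := by
    intro i hi
    rw [List.getD_eq_getElem _ _ (by rw [List.length_map]; omega), List.getElem_map]
  refine ⟨is.map Fin.val, by simpa using hl, ?_, ?_, ?_⟩
  · rw [List.pairwise_map]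
    exact h2.imp fun h => h
  · intro i hi
    rw [hq i hi]
    exact Fin.isLt _
  · intro i hi
    rw [hq i hi, List.getD_eq_getElem _ _ (Fin.isLt _), List.getD_eq_getElem _ _ hi]
    have h3 : S[i] = (is.map (fun x => G[x]))[i]'(by rw [List.length_map]; omega) :=
      List.getElem_of_eq h1 hi
    rw [h3, List.getElem_map]
    rfl

/-- the entries of a block -/
theorem blk_map {γ δ : Type} (P : List γ) (f : γ → List δ) (d : δ) (c : γ) {ls : List ℕ}
    (hls : ls = P.map (fun x => (f x).length)) {b : ℕ} (hb : b < P.length) :
    (blk ls (P.flatMap f).length b).map (fun i => (P.flatMap f).getD i d) = f (P.getD b c) := by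
  subst hls
  have hsum : (P.map (fun x => (f x).length)).sum = (P.flatMap f).length := by
    rw [List.length_flatMap]
  rw [blk_eq hsum.le]
  have e1 : (P.map (fun x => (f x).length)).getD b 0 = (f (P.getD b c)).length := by
    rw [getD_map' hb]
  have e2 : P = P.take b ++ P.getD b c :: P.drop (b + 1) := by
    rw [List.getD_eq_getElem _ _ hb, List.cons_getElem_drop_succ, List.take_append_drop]
  have e3 : ((P.map (fun x => (f x).length)).take b).sum = ((P.take b).flatMap f).length := by
    rw [← List.map_take, List.length_flatMap]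
  have e4 : P.flatMap f =
      (P.take b).flatMap f ++ (f (P.getD b c) ++ (P.drop (b + 1)).flatMap f) := by
    conv_lhs => rw [e2]
    rw [List.flatMap_append, List.flatMap_cons]
  apply List.ext_getElem
  · rw [List.length_map, List.length_range', e1]
  · intro i h1 h2
    rw [List.getElem_map, List.getElem_range', e3, List.getD_eq_getElem?_getD, e4]
    rw [Nat.one_mul, List.getElem?_append_right (by omega), Nat.add_sub_cancel_left,
      List.getElem?_append_left h2, List.getElem?_eq_getElem h2]
    rfl

theorem complete {G₁ G₂ : List (ℕ × Bool)} {k : ℕ} (h : SignedStripRecovery G₁ G₂ k)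
    (hA : lev (sp G₁ G₂) (k + 1) = []) (hB : lev (sp G₁ (rc G₂)) (k + 1) = []) :
    ∃ ls ∈ enum (List.range (k + 2)) (k + 1), ∃ π ∈ enum (List.range (k + 2)) (k + 1),
      ∃ ρ ∈ enum (List.range (2 * k + 4)) (k + 1), Valid k ls π ρ ∧
        ∃ t, PSol (xsL G₁ G₂) (yyL G₁ G₂) (clL G₁ G₂ k) (cns ls π ρ) ρ t := by
  obtain ⟨S₁, S₂, hS₁, hS₂, ⟨P₀, P₀', hP₀, hp₀, rfl, rfl⟩, hk₀⟩ := h
  rw [← List.flatMap_def] at hS₁ hS₂ hk₀
  obtain ⟨P, P', hP, hp, hs1, hs2, hk, hk1⟩ := trim _ P₀ P₀' hP₀ hp₀ hS₁ hS₂ hk₀ le_rfl
  clear hS₁ hS₂ hP₀ hp₀ hk₀ P₀ P₀'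
  set m := P.length with hm
  obtain ⟨π, hπ, hπ'⟩ : ∃ π : List ℕ, π.Perm (List.range m) ∧
      P' = π.map (fun b => P.getD b ([], false)) := by
    apply perm_map _ hp
    apply List.ext_getElem
    · simp [hm]
    · intro i h3 h4
      simp [List.getD_eq_getElem?_getD, h3]
  set S := P.flatMap Prod.fst with hS
  set M := S.length with hM
  set ls := P.map (fun x => x.1.length) with hls
  have hlsm : ls.length = m := by simp [hls, hm]
  have hsum : ls.sum = M := by rw [hM, hS, List.length_flatMap]
  have hπm : ∀ b ∈ π, b < m := fun b hb => List.mem_range.1 (hπ.mem_iff.1 hb)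
  -- orientations
  set OL := P.flatMap (fun x => List.replicate x.1.length x.2) with hOL
  have hOLl : OL.length = M := by
    rw [hOL, hM, hS, List.length_flatMap, List.length_flatMap]
    congr 1
    apply List.map_congr_left
    intro x _
    simp
  set o : ℕ → Bool := fun i => OL.getD i false with ho
  have hblkS : ∀ b < m, (blk ls M b).map (fun i => S.getD i (0, true)) =
      (P.getD b ([], false)).1 := fun b hb => blk_map P Prod.fst (0, true) ([], false) hls hb
  have hblkO : ∀ b < m, ∀ i ∈ blk ls M b, o i = (P.getD b ([], false)).2 := by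
    intro b hb i hi
    have h1 := blk_map P (fun x => List.replicate x.1.length x.2) false ([], false) (ls := ls)
      (by rw [hls]; apply List.map_congr_left; intro x _; simp) hb
    rw [← hOL, hOLl] at h1
    have h2 : o i ∈ (blk ls M b).map (fun i => OL.getD i false) := List.mem_map.2 ⟨i, hi, rfl⟩
    rw [h1] at h2
    exact List.eq_of_mem_replicate h2
  have hblkne : ∀ b < m, (ls.take b).sum ∈ blk ls M b := by
    intro b hb
    rw [blk_eq hsum.le, List.mem_range']
    refine ⟨0, ?_, by simp⟩
    have h1 : ls.getD b 0 = (P.getD b ([], false)).1.length := by rw [hls, getD_map' hb]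
    have h2 : 2 ≤ (P.getD b ([], false)).1.length := by
      rw [List.getD_eq_getElem _ _ hb]
      exact hP _ (List.getElem_mem _)
    omega
  -- the order in the second genome
  set σ := π.flatMap (fun b => if (P.getD b ([], false)).2 = true then (blk ls M b).reverse
    else blk ls M b) with hσ
  have hσp : σ.Perm (List.range M) := by
    have h1 : σ.Perm (π.flatMap (blk ls M)) := by
      apply List.Perm.flatMap_left
      intro b _
      split_ifs
      · exact List.reverse_perm _
      · exact List.Perm.refl _
    have h2 : (π.flatMap (blk ls M)).Perm ((List.range m).flatMap (blk ls M)) :=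
      hπ.flatMap_right _
    have h3 := flatMap_blk (M := M) (ls := ls) hsum.le m
    rw [← hlsm, List.take_length, hsum] at h3
    rw [← h3, hlsm]
    exact h1.trans h2
  have hσM : ∀ i, i ∈ σ ↔ i < M := fun i => by rw [hσp.mem_iff, List.mem_range]
  have hσnd : σ.Nodup := hσp.nodup_iff.2 List.nodup_range
  have hσl : σ.length = M := by rw [hσp.length_eq, List.length_range]
  set w : ℕ → ℕ × Bool := fun i =>
    if o i = true then flip (S.getD i (0, true)) else S.getD i (0, true) with hw
  have hS2 : P'.flatMap place = σ.map w := by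
    rw [hπ', hσ, List.map_flatMap, List.flatMap_map]
    rw [List.flatMap_def, List.flatMap_def]
    congr 1
    apply List.map_congr_left
    intro b hb
    have hbm := hπm b hb
    have h1 := hblkO b hbm
    have h2 := hblkS b hbm
    unfold place
    by_cases he : (P.getD b ([], false)).2 = true
    · rw [if_pos he, if_pos he, rc, ← h2, List.map_map, List.map_reverse]
      congr 1
      apply List.map_congr_left
      intro i hi
      simp only [hw, Function.comp, h1 i hi, he, if_true]
    · rw [if_neg he, if_neg he, ← h2]
      apply List.map_congr_left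
      intro i hi
      simp only [hw, h1 i hi, if_neg he]
  rw [hS2] at hs2
  obtain ⟨q, hq1, hq2, hq3, hq4⟩ := pos_of_sub (0, true) hs1
  obtain ⟨q', hq1', hq2', hq3', hq4'⟩ := pos_of_sub (0, true) hs2
  have hl2 : (σ.map w).length = M := by rw [List.length_map, hσl]
  rw [hl2] at hq1' hq3' hq4'
  set X : ℕ → ℕ := fun i => q.getD i 0 with hX
  set Y : ℕ → ℕ := fun i => q'.getD (σ.idxOf i) 0 with hY
  have hidx : ∀ i < M, σ.idxOf i < M := by
    intro i hi
    rw [← hσl, List.idxOf_lt_length_iff]
    exact (hσM i).2 hi
  have hX1 : ∀ i < M, X i < G₁.length := hq3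
  have hX2 : ∀ i < M, G₁.getD (X i) (0, true) = S.getD i (0, true) := hq4
  have hY1 : ∀ i < M, Y i < G₂.length := fun i hi => hq3' _ (hidx i hi)
  have hY2 : ∀ i < M, G₂.getD (Y i) (0, true) = w i := by
    intro i hi
    have h1 := hidx i hi
    rw [hY]
    simp only
    rw [hq4' _ h1, getD_map' (d' := 0) (by rw [hσl]; exact h1),
      List.getD_eq_getElem _ _ (by rw [hσl]; exact h1), List.getElem_idxOf]
  have hq'Y : q' = σ.map Y := by
    apply List.ext_getElem
    · rw [List.length_map, hσl, hq1']
    · intro j h1 h2
      rw [List.getElem_map]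
      have h3 : j < σ.length := by rw [List.length_map] at h2; exact h2
      change q'[j] = q'.getD (σ.idxOf (σ[j]'h3)) 0
      rw [hσnd.idxOf_getElem, List.getD_eq_getElem _ _ h1]
  -- the points
  set A := pl G₁ G₂ with hAdef
  set B := pl G₁ (rc G₂) with hBdef
  set t : ℕ → ℕ := fun i => if o i = true then A.length + B.idxOf (X i, G₂.length - 1 - Y i)
    else A.idxOf (X i, Y i) with ht
  set cl := clL G₁ G₂ k with hcl
  have hpt : ∀ i < M, t i < cl.length ∧ (xsL G₁ G₂).getD (t i) 0 = X i ∧
      (yyL G₁ G₂).getD (t i) 0 = Y i ∧ decide (cl.getD (t i) 0 % 2 = 1) = o i ∧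
      cl.getD (t i) 0 < 2 * k + 4 := by
    intro i hi
    have y1 := hY1 i hi
    have hcll : cl.length = A.length + B.length := clL_length _ _ _
    by_cases hoi : o i = true
    · have hmem : (X i, G₂.length - 1 - Y i) ∈ B := by
        rw [hBdef, mem_pl]
        refine ⟨hX1 i hi, by rw [rc_length]; simp only; omega, ?_⟩
        simp only
        rw [hX2 i hi, rc_getD (by omega),
          show G₂.length - 1 - (G₂.length - 1 - Y i) = Y i by omega, hY2 i hi]
        simp only [hw, hoi, if_true, flip_flip]
      have h1 := List.idxOf_lt_length_iff.2 hmem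
      have h2 : B.getD (B.idxOf (X i, G₂.length - 1 - Y i)) (0, 0) =
          (X i, G₂.length - 1 - Y i) := by
        rw [List.getD_eq_getElem _ _ h1, List.getElem_idxOf]
      have h3 : t i = A.length + B.idxOf (X i, G₂.length - 1 - Y i) := by
        simp only [ht, hoi, if_true]
      rw [h3]
      refine ⟨by omega, ?_, ?_, ?_, ?_⟩
      · rw [xsL_right h1, h2]
      · rw [yyL_right h1, h2]; simp only; omega
      · rw [hcl, clL_right h1, hoi]
        simp
      · rw [hcl, clL_right h1, ranks_getD (by rw [sp_length]; exact h1)]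
        have := rk_lt (x := B.idxOf (X i, G₂.length - 1 - Y i)) hB
        omega
    · have hmem : (X i, Y i) ∈ A := by
        rw [hAdef, mem_pl]
        refine ⟨hX1 i hi, y1, ?_⟩
        simp only
        rw [hX2 i hi, hY2 i hi]
        simp only [hw, if_neg hoi]
      have h1 := List.idxOf_lt_length_iff.2 hmem
      have h2 : A.getD (A.idxOf (X i, Y i)) (0, 0) = (X i, Y i) := by
        rw [List.getD_eq_getElem _ _ h1, List.getElem_idxOf]
      have h3 : t i = A.idxOf (X i, Y i) := by
        simp only [ht, if_neg hoi]
      rw [h3]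
      refine ⟨by omega, ?_, ?_, ?_, ?_⟩
      · rw [xsL_left h1, h2]
      · rw [yyL_left h1, h2]
      · rw [hcl, clL_left h1, Bool.eq_false_iff.2 hoi, decide_eq_false_iff_not]
        omega
      · rw [hcl, clL_left h1, ranks_getD (by rw [sp_length]; exact h1)]
        have := rk_lt (x := A.idxOf (X i, Y i)) hA
        omega
  set ρ := (List.range M).map (fun i => cl.getD (t i) 0) with hρ
  have hρM : ρ.length = M := by simp [hρ]
  have hρi : ∀ i < M, ρ.getD i 0 = cl.getD (t i) 0 := by
    intro i hi
    rw [hρ, getD_map' (d' := 0) (by simpa using hi)]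
    congr 2
    rw [List.getD_eq_getElem _ _ (by simpa using hi), List.getElem_range]
  have hebb : ∀ b < m, eb ls ρ b = (P.getD b ([], false)).2 := by
    intro b hb
    have h1 := hblkne b hb
    have h2 := mem_blk h1
    rw [eb, hρi _ h2, (hpt _ h2).2.2.2.1]
    exact hblkO b hb _ h1
  have hsg : sg ls π ρ = σ := by
    rw [sg, hσ, hρM, List.flatMap_def, List.flatMap_def]
    congr 1
    apply List.map_congr_left
    intro b hb
    rw [hebb b (hπm b hb)]
  have hms : m ≤ M := by
    have : ∀ P : List (List (ℕ × Bool) × Bool), (∀ x ∈ P, 2 ≤ x.1.length) →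
        P.length ≤ (P.flatMap Prod.fst).length := by
      intro B
      induction B with
      | nil => simp
      | cons b B ih =>
        intro h
        have h1 := h b (by simp)
        have h2 := ih (fun c hc => h c (by simp [hc]))
        rw [List.flatMap_cons, List.length_append, List.length_cons]
        omega
    exact this P hP
  refine ⟨ls, ?_, π, ?_, ρ, ?_, ?_, t, ?_⟩
  · rw [mem_enum]
    refine ⟨by omega, fun x hx => ?_⟩
    rw [List.mem_range]
    have := List.single_le_sum (l := ls) (by simp) x hx
    omega
  · rw [mem_enum]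
    refine ⟨by rw [hπ.length_eq, List.length_range]; omega, fun x hx => ?_⟩
    rw [List.mem_range]
    have := hπm x hx
    omega
  · rw [mem_enum]
    refine ⟨by omega, fun x hx => ?_⟩
    rw [hρ, List.mem_map] at hx
    obtain ⟨i, hi, rfl⟩ := hx
    rw [List.mem_range]
    exact (hpt i (List.mem_range.1 hi)).2.2.2.2
  · refine ⟨?_, by omega, by omega, ?_, ?_, ?_⟩
    · intro l hl
      rw [hls, List.mem_map] at hl
      obtain ⟨x, hx, rfl⟩ := hl
      exact hP x hx
    · rw [hπ.length_eq, List.length_range, hlsm]
    · intro b hb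
      rw [hlsm] at hb
      exact hπ.mem_iff.2 hb
    · intro b hb i hi
      rw [hlsm, List.mem_range] at hb
      rw [hρM] at hi
      have hiM := mem_blk hi
      rw [hρi i hiM, (hpt i hiM).2.2.2.1, hebb b hb]
      exact hblkO b hb i hi
  · refine ⟨?_, ?_, ?_⟩
    · intro i hi
      rw [hρM] at hi
      exact ⟨(hpt i hi).1, (hρi i hi).symm⟩
    · intro i hi
      rw [hρM] at hi
      rw [(hpt i (by omega)).2.1, (hpt (i + 1) hi).2.1, hX]
      simp only
      rw [List.getD_eq_getElem _ _ (by omega), List.getD_eq_getElem _ _ (by omega)]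
      exact List.pairwise_iff_getElem.1 hq2 i (i + 1) (by omega) (by omega) (by omega)
    · intro c hc
      obtain ⟨hc1, hc2⟩ := mem_cns hc
      rw [hρM] at hc1 hc2
      rw [(hpt c.1 hc1).2.2.1, (hpt c.2 hc2).2.2.1]
      rw [hq'Y, List.pairwise_map] at hq2'
      rw [cns, hsg] at hc
      exact (zip_tail_iff (fun a b => Y a < Y b) σ).2 hq2'.isChain c hc

end Pool.Agent.KS6_49.MS
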