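import Mathlib

set_option autoImplicit false

/-!
# Maximal strip recovery on two signed strings: definitions

A signed string is a list of signed characters; a signed character is a natural number (its name)
together with a Boolean (its orientation). Characters may be repeated.
-/

namespace Pool.Agent.KS6_49.MS

/-- the signed character with the other orientation -/
def flip (c : ℕ × Bool) : ℕ × Bool := (c.1, !c.2)

/-- the reversed and negated string: the order is reversed and all orientations are changed -/
def rc (w : List (ℕ × Bool)) : List (ℕ × Bool) := (w.map flip).reverse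

/-- A strip `x.1` together with the way `x.2` in which it occurs in the second genome: reversed and
negated (`x.2 = true`), or as it is (`x.2 = false`). -/
def place (x : List (ℕ × Bool) × Bool) : List (ℕ × Bool) := if x.2 = true then rc x.1 else x.1

/-- `S₁` and `S₂` admit a common strip partition: `S₁` is the concatenation of a list of strips of
length at least two, and `S₂` is the concatenation of the same strips in some order, some of them
reversed and negated. -/
def SignedStripPartition (S₁ S₂ : List (ℕ × Bool)) : Prop :=
  ∃ P P' : List (List (ℕ × Bool) × Bool), (∀ x ∈ P, 2 ≤ x.1.length) ∧ P'.Perm P ∧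
    S₁ = (P.map Prod.fst).flatten ∧ S₂ = (P'.map place).flatten

/-- Maximal strip recovery for signed strings: the genomes `G₁`, `G₂` have subsequences with a
common strip partition which retain at least `k` characters. -/
def SignedStripRecovery (G₁ G₂ : List (ℕ × Bool)) (k : ℕ) : Prop :=
  ∃ S₁ S₂ : List (ℕ × Bool), S₁.Sublist G₁ ∧ S₂.Sublist G₂ ∧ SignedStripPartition S₁ S₂ ∧
    k ≤ S₁.length

/-- `S₁` and `S₂` admit a common strip partition (without signs): `S₁` is the concatenation of a
list of blocks of length at least two, and `S₂` is the concatenation of the same blocks in some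
order. -/
def CommonStripPartition (S₁ S₂ : List ℕ) : Prop :=
  ∃ B B' : List (List ℕ), (∀ b ∈ B, 2 ≤ b.length) ∧ B'.Perm B ∧ S₁ = B.flatten ∧ S₂ = B'.flatten

/-- Maximal strip recovery for strings without signs. -/
def StripRecovery (G₁ G₂ : List ℕ) (k : ℕ) : Prop :=
  ∃ S₁ S₂ : List ℕ, S₁.Sublist G₁ ∧ S₂.Sublist G₂ ∧ CommonStripPartition S₁ S₂ ∧ k ≤ S₁.length

theorem flip_flip (c : ℕ × Bool) : flip (flip c) = c := by
  simp [flip]

theorem rc_rc (w : List (ℕ × Bool)) : rc (rc w) = w := by
  simp only [rc, List.map_reverse, List.reverse_reverse, List.map_map]
  have : flip ∘ flip = id := by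
    funext c; exact flip_flip c
  rw [this, List.map_id]

theorem rc_length (w : List (ℕ × Bool)) : (rc w).length = w.length := by simp [rc]

theorem rc_sublist {u w : List (ℕ × Bool)} (h : u.Sublist w) : (rc u).Sublist (rc w) :=
  (h.map flip).reverse

theorem place_length (x : List (ℕ × Bool) × Bool) : (place x).length = x.1.length := by
  unfold place
  split_ifs
  · exact rc_length _
  · rfl

end Pool.Agent.KS6_49.MS
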