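import Pool.Agent.KS6_49.MS.Algo
import Pool.Agent.KS6_49.L8.H628R2.FPTW

set_option autoImplicit false

/-!
# Maximal strip recovery on two signed strings is fixed-parameter tractable
-/

namespace Pool.Agent.KS6_49.MS

open Pool.Agent.NPC
open Turing

/-- the exponent of the pad -/
def mm (k : ℕ) : ℕ := (k + 1) * (2 * k + 5).size

theorem pad_le (k : ℕ) : (2 * k + 5) ^ (k + 1) ≤ 2 ^ mm k := by
  rw [mm, Nat.mul_comm (k + 1), pow_mul]
  exact Nat.pow_le_pow_left (Nat.lt_size_self _).le _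

theorem pad_ge (k : ℕ) : 2 ^ mm k ≤ (k + 2) ^ (4 * (k + 1)) := by
  rw [mm, Nat.mul_comm (k + 1), pow_mul, pow_mul]
  apply Nat.pow_le_pow_left
  have h1 : 2 ^ (2 * k + 5).size ≤ 2 * (2 * k + 5) := by
    obtain ⟨s, hs⟩ : ∃ s, (2 * k + 5).size = s + 1 :=
      ⟨(2 * k + 5).size - 1, by have := Nat.size_pos.2 (show 0 < 2 * k + 5 by omega); omega⟩
    have h2 : ¬ 2 * k + 5 < 2 ^ s := by
      intro h3
      have := Nat.size_le.2 h3
      omega
    rw [hs, pow_succ]
    omega
  refine h1.trans ?_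
  have h2 : (k + 2) ^ 4 = (k + 2) * ((k + 2) * (k + 2) * (k + 2)) := by ring
  rw [h2]
  have h3 : 8 ≤ (k + 2) * (k + 2) * (k + 2) := by
    have : 4 ≤ (k + 2) * (k + 2) := by nlinarith
    nlinarith
  nlinarith

theorem u_mm {α : Type} [TEnc α] {κ : α → ℕ} (h : UPoly κ) : UPoly (fun a => mm (κ a)) := by
  have h1 : UPoly (fun a => (2 * κ a + 5).size) := by
    have h2 : Poly (fun a => (2 * κ a + 5).bits) :=
      NPC.Poly.natBits (NPC.Poly.add (NPC.Poly.mul (NPC.Poly.const 2) h.toPoly)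
        (NPC.Poly.const 5))
    have h3 := UPoly.length h2
    have h4 : (fun a => (2 * κ a + 5).bits.length) = fun a => (2 * κ a + 5).size := by
      funext a
      exact Nat.size_eq_bits_len _
    rw [h4] at h3
    exact h3
  exact UPoly.mul (UPoly.add h (UPoly.const 1)) h1

/-- a fixed-parameter algorithm with explicit dependence on the parameter -/
theorem fpt_explicit {α : Type} [TEnc α] (g : α → Bool) (κ : α → ℕ) (hκ : UPoly κ)
    (hg : Poly (fun x : {x : α × List Unit // 2 ^ (mm (κ x.1)) ≤ x.2.length} => g x.1.1)) :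
    ∃ (tm : FinTM2) (e₀ : tm.Γ tm.k₀ ≃ Bool) (e₁ : tm.Γ tm.k₁ ≃ Bool) (c : ℕ),
      ∀ a, Nonempty (TM2OutputsInTime tm ((bits a).map e₀.invFun)
        (some ((bits (g a)).map e₁.invFun))
        ((κ a + 2) ^ (c * (κ a + 1)) * ((bits a).length + 1) ^ c)) := by
  obtain ⟨cm, P, hc⟩ := fpt_run g κ mm (u_mm hκ) hg
  obtain ⟨C, D, hP⟩ := eval_le_pow P
  obtain ⟨tm, e₀, e₁, htm⟩ := runs_to_tm g cm _ hc
  refine ⟨tm, e₀, e₁, C + 1 + 12 * D, fun a => ?_⟩
  obtain ⟨h⟩ := htm a
  refine ⟨outputs_conv rfl rfl ?_ h⟩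
  set k := κ a with hk
  set L := (bits a).length + 1 with hL
  set E := 2 ^ (2 * mm k + 4) with hE
  have hE1 : 1 ≤ E := Nat.one_le_two_pow
  have h1 : (bits a).length + E ≤ E * L := by
    rw [hL]
    nlinarith [Nat.mul_le_mul_left (bits a).length hE1]
  have h2 := hP ((bits a).length + E) (by omega)
  have h3 : ((bits a).length + E) ^ D ≤ (E * L) ^ D := Nat.pow_le_pow_left h1 D
  have h4 : 1 ≤ ((bits a).length + E) ^ D := Nat.one_le_pow _ _ (by omega)
  have h5 : P.eval ((bits a).length + E) + 1 ≤ (C + 1) * (E ^ D * L ^ D) := by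
    calc P.eval ((bits a).length + E) + 1
        ≤ C * ((bits a).length + E) ^ D + ((bits a).length + E) ^ D := Nat.add_le_add h2 h4
      _ = (C + 1) * ((bits a).length + E) ^ D := by ring
      _ ≤ (C + 1) * (E * L) ^ D := Nat.mul_le_mul_left _ h3
      _ = (C + 1) * (E ^ D * L ^ D) := by rw [mul_pow]
  have hk2 : 2 ≤ k + 2 := by omega
  have h6 : C + 1 ≤ (k + 2) ^ (C + 1) :=
    (Nat.lt_two_pow_self (n := C + 1)).le.trans (Nat.pow_le_pow_left hk2 _)
  have h7 : E ≤ (k + 2) ^ (8 * (k + 1) + 4) := by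
    rw [hE, pow_add, pow_add, Nat.mul_comm 2 (mm k), pow_mul]
    refine Nat.mul_le_mul ?_ (Nat.pow_le_pow_left hk2 _)
    refine (Nat.pow_le_pow_left (pad_ge k) 2).trans ?_
    rw [← pow_mul]
    exact Nat.pow_le_pow_right (by omega) (by omega)
  have h8 : E ^ D ≤ (k + 2) ^ ((8 * (k + 1) + 4) * D) := by
    rw [pow_mul]
    exact Nat.pow_le_pow_left h7 D
  have h9 : L ^ D ≤ L ^ (C + 1 + 12 * D) := Nat.pow_le_pow_right (by omega) (by omega)
  refine h5.trans ?_
  calc (C + 1) * (E ^ D * L ^ D)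
      ≤ (k + 2) ^ (C + 1) * ((k + 2) ^ ((8 * (k + 1) + 4) * D) * L ^ (C + 1 + 12 * D)) :=
        Nat.mul_le_mul h6 (Nat.mul_le_mul h8 h9)
    _ = (k + 2) ^ ((C + 1) + (8 * (k + 1) + 4) * D) * L ^ (C + 1 + 12 * D) := by
        rw [pow_add]; ring
    _ ≤ (k + 2) ^ ((C + 1 + 12 * D) * (k + 1)) * L ^ (C + 1 + 12 * D) := by
        refine Nat.mul_le_mul_right _ (Nat.pow_le_pow_right (by omega) ?_)
        nlinarith [Nat.zero_le (C * k), Nat.zero_le (D * k)]

/-- the effective parameter -/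
def kap {β : Type} (a : List β × List β × ℕ) : ℕ := min a.2.2 (a.1.length + 1)

theorem u_kap {β : Type} [TEnc β] : UPoly (kap (β := β)) := by
  refine UPoly.of_le (n := fun a => a.1.length + 1)
    (Poly.min (Poly.snd (Poly.snd Poly.id)) (Poly.length (Poly.fst Poly.id)).succ)
    (UPoly.add (UPoly.length (Poly.fst Poly.id)) (UPoly.const 1)) fun a => ?_
  exact Nat.min_le_right _ _

/-- the general form: `s` translates the genomes to signed strings -/
theorem fpt_of {β : Type} [TEnc β] (s : List β → List (ℕ × Bool)) (hs : Poly s)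
    (hl : ∀ G, (s G).length = G.length) :
    ∃ (tm : FinTM2) (e₀ : tm.Γ tm.k₀ ≃ Bool) (e₁ : tm.Γ tm.k₁ ≃ Bool) (c : ℕ),
      ∀ (G₁ G₂ : List β) (k : ℕ), ∃ b : Bool,
        (b = true ↔ SignedStripRecovery (s G₁) (s G₂) k) ∧
        Nonempty (TM2OutputsInTime tm ((bits (G₁, G₂, k)).map e₀.invFun)
          (some ((bits b).map e₁.invFun))
          ((k + 2) ^ (c * (k + 1)) * ((bits (G₁, G₂, k)).length + 1) ^ c)) := by
  classical
  set g : List β × List β × ℕ → Bool := fun a =>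
    decide (a.2.2 ≤ a.1.length ∧ Test (s a.1) (s a.2.1) (kap a)) with hg
  have hP : Poly (fun x : {x : (List β × List β × ℕ) × List Unit //
      2 ^ (mm (kap x.1)) ≤ x.2.length} => g x.1.1) := by
    have hv := Poly.val (fun x : (List β × List β × ℕ) × List Unit =>
      2 ^ (mm (kap x.1)) ≤ x.2.length)
    have h1 := Poly.fst hv
    refine PP.dec (PP.and (PP.le (Poly.snd (Poly.snd h1)) (Poly.length (Poly.fst h1))) ?_)
    exact pp_test (N := fun x : {x : (List β × List β × ℕ) × List Unit //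
      2 ^ (mm (kap x.1)) ≤ x.2.length} => x.1.2.length) (hs.comp (Poly.fst h1))
      (hs.comp (Poly.fst (Poly.snd h1))) (u_kap.comp h1) (UPoly.length (Poly.snd hv))
      fun a => (pad_le _).trans a.2
  obtain ⟨tm, e₀, e₁, c, h⟩ := fpt_explicit g kap u_kap hP
  refine ⟨tm, e₀, e₁, c, fun G₁ G₂ k => ⟨g (G₁, G₂, k), ?_, ?_⟩⟩
  · rw [hg]
    simp only [decide_eq_true_eq]
    constructor
    · rintro ⟨h1, h2⟩
      have h3 : kap (G₁, G₂, k) = k := by
        unfold kap
        simp only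
        omega
      rw [h3] at h2
      exact (test_iff _ _ _).1 h2
    · intro h1
      have h2 : k ≤ G₁.length := by
        obtain ⟨S₁, S₂, h1, -, -, h4⟩ := h1
        rw [← hl G₁]
        exact h4.trans h1.length_le
      have h3 : kap (G₁, G₂, k) = k := by
        unfold kap
        simp only
        omega
      rw [h3]
      exact ⟨h2, (test_iff _ _ _).2 h1⟩
  · obtain ⟨h'⟩ := h (G₁, G₂, k)
    refine ⟨outputs_conv rfl rfl ?_ h'⟩
    refine Nat.mul_le_mul_right _ ?_
    have h3 : kap (G₁, G₂, k) ≤ k := Nat.min_le_left _ _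
    exact (Nat.pow_le_pow_left (by omega) _).trans
      (Nat.pow_le_pow_right (by omega) (Nat.mul_le_mul_left _ (by omega)))

/-- all characters with the positive orientation -/
def sgn (G : List ℕ) : List (ℕ × Bool) := G.map (fun c => (c, true))

theorem p_sgn : Poly sgn := by
  unfold sgn; fun_prop

theorem sgn_fst (G : List ℕ) : (sgn G).map Prod.fst = G := by
  rw [sgn, List.map_map]
  exact List.map_id' _

theorem unsigned_iff (G₁ G₂ : List ℕ) (k : ℕ) :
    SignedStripRecovery (sgn G₁) (sgn G₂) k ↔ StripRecovery G₁ G₂ k := by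
  constructor
  · rintro ⟨S₁, S₂, h1, h2, ⟨P, P', hP, hp, rfl, rfl⟩, hk⟩
    have hpos1 : ∀ x ∈ P, ∀ c ∈ x.1, c.2 = true := by
      intro x hx c hc
      have h3 : c ∈ sgn G₁ := h1.subset (List.mem_flatten.2 ⟨x.1, List.mem_map.2 ⟨x, hx, rfl⟩, hc⟩)
      rw [sgn, List.mem_map] at h3
      obtain ⟨d, -, rfl⟩ := h3
      rfl
    have hpos2 : ∀ x ∈ P', ∀ c ∈ place x, c.2 = true := by
      intro x hx c hc
      have h3 : c ∈ sgn G₂ := h2.subset (List.mem_flatten.2 ⟨place x, List.mem_map.2 ⟨x, hx, rfl⟩, hc⟩)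
      rw [sgn, List.mem_map] at h3
      obtain ⟨d, -, rfl⟩ := h3
      rfl
    have hdir : ∀ x ∈ P', place x = x.1 := by
      intro x hx
      have hxP : x ∈ P := hp.mem_iff.1 hx
      by_cases h3 : x.2 = true
      · exfalso
        have h4 := hP x hxP
        have h5 : x.1 ≠ [] := by
          intro h6
          rw [h6] at h4
          simp at h4
        obtain ⟨c, hc⟩ := List.exists_mem_of_ne_nil _ h5
        have h6 : flip c ∈ place x := by
          unfold place
          rw [if_pos h3, rc, List.mem_reverse]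
          exact List.mem_map.2 ⟨c, hc, rfl⟩
        have h7 := hpos2 x hx _ h6
        have h8 := hpos1 x hxP c hc
        simp [flip, h8] at h7
      · unfold place
        rw [if_neg h3]
    have e2 : P'.map place = P'.map Prod.fst := List.map_congr_left hdir
    rw [e2] at h2
    refine ⟨(P.map Prod.fst).flatten.map Prod.fst, (P'.map Prod.fst).flatten.map Prod.fst, ?_, ?_,
      ⟨P.map (fun x => x.1.map Prod.fst), P'.map (fun x => x.1.map Prod.fst), ?_, hp.map _, ?_, ?_⟩,
      ?_⟩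
    · have := h1.map Prod.fst
      rwa [sgn_fst] at this
    · have := h2.map Prod.fst
      rwa [sgn_fst] at this
    · intro b hb
      obtain ⟨x, hx, rfl⟩ := List.mem_map.1 hb
      rw [List.length_map]
      exact hP x hx
    · rw [List.map_flatten, List.map_map]; rfl
    · rw [List.map_flatten, List.map_map]; rfl
    · rw [List.length_map]; exact hk
  · rintro ⟨S₁, S₂, h1, h2, ⟨B, B', hB, hp, rfl, rfl⟩, hk⟩
    refine ⟨sgn B.flatten, sgn B'.flatten, h1.map _, h2.map _,
      ⟨B.map (fun b => (sgn b, false)), B'.map (fun b => (sgn b, false)), ?_, hp.map _, ?_, ?_⟩, ?_⟩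
    · intro x hx
      obtain ⟨b, hb, rfl⟩ := List.mem_map.1 hx
      simp only [sgn, List.length_map]
      exact hB b hb
    · rw [List.map_map, sgn, List.map_flatten]; rfl
    · rw [List.map_map, sgn, List.map_flatten]
      congr 1
    · rw [sgn, List.length_map]; exact hk

/-- strip recovery for two signed strings -/
theorem signed_fpt :
    ∃ (tm : FinTM2) (e₀ : tm.Γ tm.k₀ ≃ Bool) (e₁ : tm.Γ tm.k₁ ≃ Bool) (c : ℕ),
      ∀ (G₁ G₂ : List (ℕ × Bool)) (k : ℕ), ∃ b : Bool,
        (b = true ↔ SignedStripRecovery G₁ G₂ k) ∧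
        Nonempty (TM2OutputsInTime tm ((bits (G₁, G₂, k)).map e₀.invFun)
          (some ((bits b).map e₁.invFun))
          ((k + 2) ^ (c * (k + 1)) * ((bits (G₁, G₂, k)).length + 1) ^ c)) :=
  fpt_of (fun G => G) Poly.id (fun _ => rfl)

/-- strip recovery for two strings -/
theorem unsigned_fpt :
    ∃ (tm : FinTM2) (e₀ : tm.Γ tm.k₀ ≃ Bool) (e₁ : tm.Γ tm.k₁ ≃ Bool) (c : ℕ),
      ∀ (G₁ G₂ : List ℕ) (k : ℕ), ∃ b : Bool,
        (b = true ↔ StripRecovery G₁ G₂ k) ∧
        Nonempty (TM2OutputsInTime tm ((bits (G₁, G₂, k)).map e₀.invFun)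
          (some ((bits b).map e₁.invFun))
          ((k + 2) ^ (c * (k + 1)) * ((bits (G₁, G₂, k)).length + 1) ^ c)) := by
  obtain ⟨tm, e₀, e₁, c, h⟩ := fpt_of sgn p_sgn (fun G => by simp [sgn])
  refine ⟨tm, e₀, e₁, c, fun G₁ G₂ k => ?_⟩
  obtain ⟨b, h1, h2⟩ := h G₁ G₂ k
  exact ⟨b, h1.trans (unsigned_iff G₁ G₂ k), h2⟩

end Pool.Agent.KS6_49.MS
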