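import Pool.Agent.KS6_49.MS.TwoS

set_option autoImplicit false

/-!
# A pattern as a system of binary constraints

The points are numbered; `xs`, `yy` are the lists of their positions in the two genomes and `cl` is
the list of their classes. In an even class the positions `yy` decrease, in an odd class they
increase.
-/

namespace Pool.Agent.KS6_49.MS

/-- `t` maps the places of a pattern to points of the classes `ρ`, increasing for the first genome,
and with the order given by `C` for the second genome. -/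
def PSol (xs yy cl : List ℕ) (C : List (ℕ × ℕ)) (ρ : List ℕ) (t : ℕ → ℕ) : Prop :=
  (∀ i < ρ.length, t i < cl.length ∧ cl.getD (t i) 0 = ρ.getD i 0) ∧
  (∀ i, i + 1 < ρ.length → xs.getD (t i) 0 < xs.getD (t (i + 1)) 0) ∧
  (∀ c ∈ C, yy.getD (t c.1) 0 < yy.getD (t c.2) 0)

/-- the excluded pairs of half lines -/
def Ex (xs yy cl : List ℕ) (C : List (ℕ × ℕ)) (ρ : List ℕ) (u v : ℕ × ℕ × Bool) : Prop :=
  (u.1 = v.1 ∧ (u.2.1 = v.2.1 ∧ (u.2.2 = true ∧ (v.2.2 = false ∧
    cl.getD u.2.1 0 ≠ ρ.getD u.1 0)))) ∨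
  ((v.1 = u.1 + 1 ∧ (cl.getD u.2.1 0 = ρ.getD u.1 0 ∧ (cl.getD v.2.1 0 = ρ.getD v.1 0 ∧
    (xs.getD v.2.1 0 ≤ xs.getD u.2.1 0 ∧ (u.2.2 = true ∧ v.2.2 = false))))) ∨
  ((u.1, v.1) ∈ C ∧ (cl.getD u.2.1 0 = ρ.getD u.1 0 ∧ (cl.getD v.2.1 0 = ρ.getD v.1 0 ∧
    (yy.getD v.2.1 0 ≤ yy.getD u.2.1 0 ∧ (u.2.2 = decide (ρ.getD u.1 0 % 2 = 1) ∧
      v.2.2 = decide (ρ.getD v.1 0 % 2 = 0)))))))

/-- the classes are monotone -/
def Mono (xs yy cl : List ℕ) : Prop :=
  ∀ a b, a ≤ b → b < cl.length → cl.getD a 0 = cl.getD b 0 →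
    xs.getD a 0 ≤ xs.getD b 0 ∧ (cl.getD a 0 % 2 = 0 → yy.getD b 0 ≤ yy.getD a 0) ∧
      (cl.getD a 0 % 2 = 1 → yy.getD a 0 ≤ yy.getD b 0)

theorem psol_iff {xs yy cl : List ℕ} {C : List (ℕ × ℕ)} {ρ : List ℕ} (hm : Mono xs yy cl)
    (hC : ∀ c ∈ C, c.1 < ρ.length ∧ c.2 < ρ.length) :
    Consistent ρ.length cl.length (Ex xs yy cl C ρ) ↔ ∃ t, PSol xs yy cl C ρ t := by
  constructor
  · intro h
    obtain ⟨t, h1, h2⟩ := sol_of_consistent h
    have hc : ∀ i < ρ.length, cl.getD (t i) 0 = ρ.getD i 0 := by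
      intro i hi
      by_contra hne
      exact h2 (i, t i, true) (i, t i, false) hi hi (Or.inl ⟨rfl, rfl, rfl, rfl, hne⟩) rfl rfl
    refine ⟨t, fun i hi => ⟨h1 i hi, hc i hi⟩, ?_, ?_⟩
    · intro i hi
      by_contra hle
      push Not at hle
      exact h2 (i, t i, true) (i + 1, t (i + 1), false) (by simp only; omega) hi
        (Or.inr (Or.inl ⟨rfl, hc i (by omega), hc (i + 1) hi, hle, rfl, rfl⟩)) rfl rfl
    · intro c hcC
      obtain ⟨hc1, hc2⟩ := hC c hcC
      by_contra hle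
      push Not at hle
      exact h2 (c.1, t c.1, decide (ρ.getD c.1 0 % 2 = 1)) (c.2, t c.2, decide (ρ.getD c.2 0 % 2 = 0))
        hc1 hc2 (Or.inr (Or.inr ⟨hcC, hc _ hc1, hc _ hc2, hle, rfl, rfl⟩)) rfl rfl
  · rintro ⟨t, h1, h2, h3⟩
    refine consistent_of_sol t (fun i hi => (h1 i hi).1) ?_
    rintro ⟨i, a, d⟩ ⟨j, b, e⟩ hi hj ha hb hE hu hv
    simp only at hi hj ha hb
    obtain ⟨ti1, ti2⟩ := h1 i hi
    obtain ⟨tj1, tj2⟩ := h1 j hj
    rcases hE with ⟨e1, e2, e3, e4, e5⟩ | ⟨e1, e2, e3, e4, e5, e6⟩ | ⟨e1, e2, e3, e4, e5, e6⟩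
    · simp only at e1 e2 e3 e4 e5
      subst e1; subst e2; subst e3; subst e4
      have f1 : a ≤ t i := by simpa [Holds] using hu
      have f2 : t i ≤ a := by simpa [Holds] using hv
      have f3 : t i = a := le_antisymm f2 f1
      exact e5 (f3 ▸ ti2)
    · simp only at e1 e2 e3 e4 e5 e6
      subst e1; subst e5; subst e6
      have f1 : a ≤ t i := by simpa [Holds] using hu
      have f2 : t (i + 1) ≤ b := by simpa [Holds] using hv
      have g1 := (hm a (t i) f1 ti1 (by rw [e2, ti2])).1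
      have g2 := (hm (t (i + 1)) b f2 hb (by rw [e3, tj2])).1
      have g3 := h2 i hj
      omega
    · simp only at e1 e2 e3 e4 e5 e6
      have g3 := h3 (i, j) e1
      simp only at g3
      have g1 : yy.getD a 0 ≤ yy.getD (t i) 0 := by
        rcases Nat.mod_two_eq_zero_or_one (ρ.getD i 0) with hp | hp
        · have hd : d = false := by rw [e5, hp]; rfl
          subst hd
          have f1 : t i ≤ a := by simpa [Holds] using hu
          exact (hm (t i) a f1 ha (by rw [e2, ti2])).2.1 (by rw [ti2]; exact hp)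
        · have hd : d = true := by rw [e5, hp]; rfl
          subst hd
          have f1 : a ≤ t i := by simpa [Holds] using hu
          exact (hm a (t i) f1 ti1 (by rw [e2, ti2])).2.2 (by rw [e2]; exact hp)
      have g2 : yy.getD (t j) 0 ≤ yy.getD b 0 := by
        rcases Nat.mod_two_eq_zero_or_one (ρ.getD j 0) with hp | hp
        · have hd : e = true := by rw [e6, hp]; rfl
          subst hd
          have f1 : b ≤ t j := by simpa [Holds] using hv
          exact (hm b (t j) f1 tj1 (by rw [e3, tj2])).2.1 (by rw [e3]; exact hp)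
        · have hd : e = false := by rw [e6, hp]; rfl
          subst hd
          have f1 : t j ≤ b := by simpa [Holds] using hv
          exact (hm (t j) b f1 hb (by rw [e3, tj2])).2.2 (by rw [tj2]; exact hp)
      omega

end Pool.Agent.KS6_49.MS
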