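import Pool.Agent.KS6_49.MS.Defs
import Pool.Agent.KS6_49.MS.Pat
import Pool.Agent.KS6_49.L8.H688R2.MSR.Lev
import Pool.Agent.KS6_49.L8.H688R2.MSR.Lists

set_option autoImplicit false

/-!
# The points of two signed strings and their classes
-/

namespace Pool.Agent.KS6_49.MS

open Pool.Agent.H688R2.MSR

/-- the pairs of positions of equal signed characters in `G` and `H`, with increasing first and
decreasing second position -/
def pl (G H : List (ℕ × Bool)) : List (ℕ × ℕ) :=
  (List.range G.length).flatMap (fun x => ((List.range H.length).reverse.filter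
    (fun y => decide (G.getD x (0, true) = H.getD y (0, true)))).map (fun y => (x, y)))

theorem mem_pl {G H : List (ℕ × Bool)} {p : ℕ × ℕ} : p ∈ pl G H ↔
    p.1 < G.length ∧ p.2 < H.length ∧ G.getD p.1 (0, true) = H.getD p.2 (0, true) := by
  obtain ⟨x, y⟩ := p
  simp only [pl, List.mem_flatMap, List.mem_range, List.mem_map, List.mem_filter,
    List.mem_reverse, decide_eq_true_eq, Prod.mk.injEq]
  constructor
  · rintro ⟨x', h1, y', ⟨h2, h3⟩, rfl, rfl⟩
    exact ⟨h1, h2, h3⟩
  · rintro ⟨h1, h2, h3⟩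
    exact ⟨x, h1, y, ⟨h2, h3⟩, rfl, rfl⟩

theorem pl_sorted (G H : List (ℕ × Bool)) :
    (pl G H).Pairwise (fun p q => p.1 < q.1 ∨ (p.1 = q.1 ∧ q.2 < p.2)) := by
  unfold pl
  rw [List.pairwise_flatMap]
  refine ⟨fun x _ => ?_, ?_⟩
  · rw [List.pairwise_map]
    have h1 : (List.range H.length).reverse.Pairwise (fun a b => b < a) := by
      rw [List.pairwise_reverse]; exact List.pairwise_lt_range
    refine (h1.filter _).imp fun h => ?_
    exact Or.inr ⟨rfl, h⟩
  · refine List.pairwise_lt_range.imp fun {a b} hab => ?_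
    intro p hp q hq
    obtain ⟨y, -, rfl⟩ := List.mem_map.1 hp
    obtain ⟨z, -, rfl⟩ := List.mem_map.1 hq
    exact Or.inl hab

theorem pl_lt {G H : List (ℕ × Bool)} {a b : ℕ} (hab : a < b) (hb : b < (pl G H).length) :
    ((pl G H).getD a (0, 0)).1 < ((pl G H).getD b (0, 0)).1 ∨
      (((pl G H).getD a (0, 0)).1 = ((pl G H).getD b (0, 0)).1 ∧
        ((pl G H).getD b (0, 0)).2 < ((pl G H).getD a (0, 0)).2) := by
  have h := List.pairwise_iff_getElem.1 (pl_sorted G H) a b (hab.trans hb) hb hab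
  rw [List.getD_eq_getElem _ _ (hab.trans hb), List.getD_eq_getElem _ _ hb]
  exact h

/-- the second positions -/
def sp (G H : List (ℕ × Bool)) : List ℕ := (pl G H).map Prod.snd

theorem sp_length (G H : List (ℕ × Bool)) : (sp G H).length = (pl G H).length := by simp [sp]

theorem sp_getD {G H : List (ℕ × Bool)} {a : ℕ} (ha : a < (pl G H).length) :
    (sp G H).getD a 0 = ((pl G H).getD a (0, 0)).2 := by
  rw [sp, List.getD_eq_getElem _ _ (by simpa using ha), List.getD_eq_getElem _ _ ha,
    List.getElem_map]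

theorem ranks_length (ys : List ℕ) (k : ℕ) : (ranks ys k).length = ys.length := by
  simp [ranks]

/-- points of the same rank -/
theorem class_mono {G H : List (ℕ × Bool)} {k a b : ℕ} (hK : lev (sp G H) (k + 1) = [])
    (hab : a ≤ b) (hb : b < (pl G H).length)
    (h : (ranks (sp G H) k).getD a 0 = (ranks (sp G H) k).getD b 0) :
    ((pl G H).getD a (0, 0)).1 ≤ ((pl G H).getD b (0, 0)).1 ∧
      ((pl G H).getD b (0, 0)).2 ≤ ((pl G H).getD a (0, 0)).2 := by
  rcases Nat.eq_or_lt_of_le hab with rfl | hlt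
  · exact ⟨le_rfl, le_rfl⟩
  · have hb' : b < (sp G H).length := by rw [sp_length]; exact hb
    rw [ranks_getD (hlt.trans hb'), ranks_getD hb'] at h
    have h1 := class_decr hlt hb' hK h
    rw [sp_getD hb, sp_getD (hlt.trans hb)] at h1
    refine ⟨?_, h1⟩
    rcases pl_lt hlt hb with h2 | h2
    · exact h2.le
    · exact h2.1.le

/-! ### The lists for both kinds of points -/

/-- the positions in the first genome -/
def xsL (G₁ G₂ : List (ℕ × Bool)) : List ℕ :=
  (pl G₁ G₂).map Prod.fst ++ (pl G₁ (rc G₂)).map Prod.fst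

/-- the positions in the second genome -/
def yyL (G₁ G₂ : List (ℕ × Bool)) : List ℕ :=
  (pl G₁ G₂).map Prod.snd ++ (pl G₁ (rc G₂)).map (fun p => G₂.length - 1 - p.2)

/-- the classes: even for direct points, odd for reversed ones -/
def clL (G₁ G₂ : List (ℕ × Bool)) (k : ℕ) : List ℕ :=
  (ranks (sp G₁ G₂) k).map (fun r => 2 * r) ++
    (ranks (sp G₁ (rc G₂)) k).map (fun r => 2 * r + 1)

theorem clL_length (G₁ G₂ : List (ℕ × Bool)) (k : ℕ) :
    (clL G₁ G₂ k).length = (pl G₁ G₂).length + (pl G₁ (rc G₂)).length := by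
  simp [clL, ranks_length, sp_length]

section getD

variable {G₁ G₂ : List (ℕ × Bool)} {k a : ℕ}

theorem getD_left {α : Type} {l l' : List α} {n : ℕ} (h : n < l.length) (d : α) :
    (l ++ l').getD n d = l.getD n d := by
  rw [List.getD_eq_getElem _ _ h, List.getD_eq_getElem _ _ (by rw [List.length_append]; omega),
    List.getElem_append_left h]

theorem getD_right {α : Type} {l l' : List α} {n m : ℕ} (h : n = l.length) (hm : m < l'.length)
    (d : α) : (l ++ l').getD (n + m) d = l'.getD m d := by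
  subst h
  rw [List.getD_eq_getElem _ _ hm, List.getD_eq_getElem _ _ (by rw [List.length_append]; omega),
    List.getElem_append_right (by omega)]
  congr 1
  omega

theorem getD_map' {α β : Type} {l : List α} {f : α → β} {n : ℕ} (h : n < l.length) (d : β)
    (d' : α) : (l.map f).getD n d = f (l.getD n d') := by
  rw [List.getD_eq_getElem _ _ (by simpa using h), List.getD_eq_getElem _ _ h, List.getElem_map]

theorem xsL_left (h : a < (pl G₁ G₂).length) :
    (xsL G₁ G₂).getD a 0 = ((pl G₁ G₂).getD a (0, 0)).1 := by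
  rw [xsL, getD_left (by simpa using h), getD_map' h]

theorem yyL_left (h : a < (pl G₁ G₂).length) :
    (yyL G₁ G₂).getD a 0 = ((pl G₁ G₂).getD a (0, 0)).2 := by
  rw [yyL, getD_left (by simpa using h), getD_map' h]

theorem clL_left (h : a < (pl G₁ G₂).length) :
    (clL G₁ G₂ k).getD a 0 = 2 * (ranks (sp G₁ G₂) k).getD a 0 := by
  have h' : a < (ranks (sp G₁ G₂) k).length := by rw [ranks_length, sp_length]; exact h
  rw [clL, getD_left (by simpa using h'), getD_map' h']

theorem xsL_right (h : a < (pl G₁ (rc G₂)).length) :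
    (xsL G₁ G₂).getD ((pl G₁ G₂).length + a) 0 = ((pl G₁ (rc G₂)).getD a (0, 0)).1 := by
  rw [xsL, getD_right (by simp) (by simpa using h), getD_map' h]

theorem yyL_right (h : a < (pl G₁ (rc G₂)).length) :
    (yyL G₁ G₂).getD ((pl G₁ G₂).length + a) 0 =
      G₂.length - 1 - ((pl G₁ (rc G₂)).getD a (0, 0)).2 := by
  rw [yyL, getD_right (by simp) (by simpa using h), getD_map' (d' := (0, 0)) h]

theorem clL_right (h : a < (pl G₁ (rc G₂)).length) :
    (clL G₁ G₂ k).getD ((pl G₁ G₂).length + a) 0 = 2 * (ranks (sp G₁ (rc G₂)) k).getD a 0 + 1 := by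
  have h' : a < (ranks (sp G₁ (rc G₂)) k).length := by rw [ranks_length, sp_length]; exact h
  rw [clL, getD_right (by simp [ranks_length, sp_length]) (by simpa using h'),
    getD_map' (d' := 0) h']

end getD

theorem mono_data {G₁ G₂ : List (ℕ × Bool)} {k : ℕ} (hA : lev (sp G₁ G₂) (k + 1) = [])
    (hB : lev (sp G₁ (rc G₂)) (k + 1) = []) :
    Mono (xsL G₁ G₂) (yyL G₁ G₂) (clL G₁ G₂ k) := by
  intro a b hab hb h
  rw [clL_length] at hb
  rcases Nat.lt_or_ge a (pl G₁ G₂).length with ha | ha
  · rcases Nat.lt_or_ge b (pl G₁ G₂).length with hb' | hb'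
    · rw [clL_left ha, clL_left hb'] at h
      obtain ⟨h1, h2⟩ := class_mono hA hab hb' (by omega)
      rw [clL_left ha, xsL_left ha, xsL_left hb', yyL_left ha, yyL_left hb']
      exact ⟨h1, fun _ => h2, fun h3 => by omega⟩
    · obtain ⟨c, rfl⟩ : ∃ c, b = (pl G₁ G₂).length + c := ⟨b - (pl G₁ G₂).length, by omega⟩
      rw [clL_left ha, clL_right (by omega)] at h
      omega
  · obtain ⟨c, rfl⟩ : ∃ c, b = (pl G₁ G₂).length + c := ⟨b - (pl G₁ G₂).length, by omega⟩
    obtain ⟨e, rfl⟩ : ∃ c, a = (pl G₁ G₂).length + c := ⟨a - (pl G₁ G₂).length, by omega⟩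
    have hc : c < (pl G₁ (rc G₂)).length := by omega
    have he : e < (pl G₁ (rc G₂)).length := by omega
    rw [clL_right hc, clL_right he] at h
    obtain ⟨h1, h2⟩ := class_mono hB (show e ≤ c by omega) hc (by omega)
    rw [clL_right he, xsL_right hc, xsL_right he, yyL_right hc, yyL_right he]
    exact ⟨h1, fun h3 => by omega, fun _ => by omega⟩

/-- the character at the second position of a point -/
theorem rc_getD {G : List (ℕ × Bool)} {y : ℕ} (hy : y < G.length) :
    (rc G).getD y (0, true) = flip (G.getD (G.length - 1 - y) (0, true)) := by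
  unfold rc
  rw [List.getD_eq_getElem _ _ (by simpa using hy), List.getD_eq_getElem _ _ (by omega),
    List.getElem_reverse, List.getElem_map]
  congr 2
  simp

/-- the characters of a point -/
theorem point_spec {G₁ G₂ : List (ℕ × Bool)} {k v : ℕ} (hv : v < (clL G₁ G₂ k).length) :
    (xsL G₁ G₂).getD v 0 < G₁.length ∧ (yyL G₁ G₂).getD v 0 < G₂.length ∧
    G₂.getD ((yyL G₁ G₂).getD v 0) (0, true) =
      if (clL G₁ G₂ k).getD v 0 % 2 = 1 then flip (G₁.getD ((xsL G₁ G₂).getD v 0) (0, true))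
      else G₁.getD ((xsL G₁ G₂).getD v 0) (0, true) := by
  rw [clL_length] at hv
  rcases Nat.lt_or_ge v (pl G₁ G₂).length with h | h
  · have hm : (pl G₁ G₂).getD v (0, 0) ∈ pl G₁ G₂ := by
      rw [List.getD_eq_getElem _ _ h]; exact List.getElem_mem _
    obtain ⟨h1, h2, h3⟩ := mem_pl.1 hm
    rw [xsL_left h, yyL_left h, clL_left h, if_neg (by omega)]
    exact ⟨h1, h2, h3.symm⟩
  · obtain ⟨c, rfl⟩ : ∃ c, v = (pl G₁ G₂).length + c := ⟨v - (pl G₁ G₂).length, by omega⟩
    have hc : c < (pl G₁ (rc G₂)).length := by omega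
    have hm : (pl G₁ (rc G₂)).getD c (0, 0) ∈ pl G₁ (rc G₂) := by
      rw [List.getD_eq_getElem _ _ hc]; exact List.getElem_mem _
    obtain ⟨h1, h2, h3⟩ := mem_pl.1 hm
    rw [rc_length] at h2
    rw [xsL_right hc, yyL_right hc, clL_right hc, if_pos (by omega)]
    refine ⟨h1, by omega, ?_⟩
    rw [h3, rc_getD h2, flip_flip]

end Pool.Agent.KS6_49.MS
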