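import Pool.Agent.KS6_49.MS.Pts
import Pool.Agent.KS6_49.L8.H688R2.MSR.Core

set_option autoImplicit false

/-!
# Patterns: a solution of a pattern gives a solution of strip recovery
-/

namespace Pool.Agent.KS6_49.MS

open Pool.Agent.H688R2.MSR (blk blk_eq flatMap_blk zip_tail_iff perm_range lev chain_of_lev)

/-- the orientation of block number `b` -/
def eb (ls ρ : List ℕ) (b : ℕ) : Bool := decide (ρ.getD (ls.take b).sum 0 % 2 = 1)

/-- the order of the places in the second genome -/
def sg (ls π ρ : List ℕ) : List ℕ :=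
  π.flatMap (fun b => if eb ls ρ b = true then (blk ls ρ.length b).reverse
    else blk ls ρ.length b)

/-- the constraints for the second genome -/
def cns (ls π ρ : List ℕ) : List (ℕ × ℕ) := (sg ls π ρ).zip (sg ls π ρ).tail

/-- the pattern is well formed -/
def Valid (k : ℕ) (ls π ρ : List ℕ) : Prop :=
  (∀ l ∈ ls, 2 ≤ l) ∧ (ls.sum = ρ.length ∧ (k ≤ ρ.length ∧ (π.length = ls.length ∧
    ((∀ b ∈ List.range ls.length, b ∈ π) ∧ ∀ b ∈ List.range ls.length,
      ∀ i ∈ blk ls ρ.length b, decide (ρ.getD i 0 % 2 = 1) = eb ls ρ b))))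

/-- increasing positions give a subsequence -/
theorem sub_of_inc {α : Type} {G : List α} {L : List ℕ} (d : α) (hL : L.Pairwise (· < ·))
    (hlt : ∀ x ∈ L, x < G.length) : (L.map (fun x => G.getD x d)).Sublist G := by
  have h1 : L.Sublist (List.range G.length) := by
    have hsub : L.Subperm (List.range G.length) :=
      List.subperm_of_subset (hL.imp (fun h => ne_of_lt h)) (fun x hx => List.mem_range.2 (hlt x hx))
    exact List.sublist_of_subperm_of_pairwise hsub hL List.pairwise_lt_range
  have h2 : (List.range G.length).map (fun x => G.getD x d) = G := by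
    apply List.ext_getElem
    · simp
    · intro i h3 h4
      simp [List.getD_eq_getElem?_getD, h4]
  conv_rhs => rw [← h2]
  exact h1.map _

theorem mem_blk {ls : List ℕ} {M b i : ℕ} (h : i ∈ blk ls M b) : i < M := by
  simp only [blk, List.mem_filter, List.mem_range] at h
  exact h.1

theorem mem_sg {ls π ρ : List ℕ} {i : ℕ} (h : i ∈ sg ls π ρ) : i < ρ.length := by
  rw [sg, List.mem_flatMap] at h
  obtain ⟨b, -, hi⟩ := h
  split_ifs at hi
  · exact mem_blk (List.mem_reverse.1 hi)
  · exact mem_blk hi

theorem mem_cns {ls π ρ : List ℕ} {c : ℕ × ℕ} (h : c ∈ cns ls π ρ) :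
    c.1 < ρ.length ∧ c.2 < ρ.length :=
  ⟨mem_sg (List.of_mem_zip (l₁ := sg ls π ρ) (a := c.1) (b := c.2) h).1,
    mem_sg (List.mem_of_mem_tail (List.of_mem_zip (l₁ := sg ls π ρ) (a := c.1) (b := c.2) h).2)⟩

theorem inc_of_step {f : ℕ → ℕ} {M : ℕ} (h : ∀ i, i + 1 < M → f i < f (i + 1)) :
    ∀ i j, i < j → j < M → f i < f j := by
  intro i j hij
  induction j with
  | zero => omega
  | succ j ih =>
    intro hj
    have h2 := h j hj
    rcases Nat.lt_or_ge i j with h3 | h3
    · exact (ih h3 (by omega)).trans h2
    · have : i = j := by omega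
      subst this; exact h2

/-- a solution of a valid pattern gives a solution of strip recovery -/
theorem sound_pattern {G₁ G₂ : List (ℕ × Bool)} {k k' : ℕ} {ls π ρ : List ℕ}
    (hv : Valid k ls π ρ) {t : ℕ → ℕ}
    (ht : PSol (xsL G₁ G₂) (yyL G₁ G₂) (clL G₁ G₂ k') (cns ls π ρ) ρ t) :
    SignedStripRecovery G₁ G₂ k := by
  obtain ⟨v1, v2, v3, v4, v5, v6⟩ := hv
  obtain ⟨t1, t2, t3⟩ := ht
  set M := ρ.length with hM
  set m := ls.length with hm
  have hπ : π.Perm (List.range m) := perm_range v4 (fun b hb => v5 b (List.mem_range.2 hb))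
  have hfl := flatMap_blk (M := M) (ls := ls) v2.le m
  have hta : ls.take m = ls := by rw [hm]; exact List.take_length
  rw [hta, v2] at hfl
  set g : ℕ → ℕ × Bool := fun i => G₁.getD ((xsL G₁ G₂).getD (t i) 0) (0, true) with hg
  set h : ℕ → ℕ × Bool := fun i => G₂.getD ((yyL G₁ G₂).getD (t i) 0) (0, true) with hh
  have hgh : ∀ i < M, h i = if ρ.getD i 0 % 2 = 1 then flip (g i) else g i := by
    intro i hi
    have h1 := (point_spec (t1 i hi).1).2.2
    rw [(t1 i hi).2] at h1
    exact h1
  refine ⟨(List.range M).map g, (sg ls π ρ).map h, ?_, ?_, ?_, ?_⟩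
  · -- first genome
    have h1 : (List.range M).map g =
        ((List.range M).map (fun i => (xsL G₁ G₂).getD (t i) 0)).map
          (fun x => G₁.getD x (0, true)) := by
      rw [List.map_map]; rfl
    rw [h1]
    apply sub_of_inc
    · rw [List.pairwise_map]
      have hmono := inc_of_step (f := fun i => (xsL G₁ G₂).getD (t i) 0) t2
      refine List.Pairwise.imp_of_mem ?_ (List.pairwise_lt_range (n := M))
      intro a b _ hb hab
      exact hmono a b hab (List.mem_range.1 hb)
    · intro x hx
      rw [List.mem_map] at hx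
      obtain ⟨i, hi, rfl⟩ := hx
      exact (point_spec (t1 i (List.mem_range.1 hi)).1).1
  · -- second genome
    have h1 : (sg ls π ρ).map h =
        ((sg ls π ρ).map (fun i => (yyL G₁ G₂).getD (t i) 0)).map
          (fun x => G₂.getD x (0, true)) := by
      rw [List.map_map]; rfl
    rw [h1]
    apply sub_of_inc
    · have : IsTrans ℕ (fun a b => (yyL G₁ G₂).getD (t a) 0 < (yyL G₁ G₂).getD (t b) 0) :=
        ⟨fun _ _ _ h h' => h.trans h'⟩
      rw [List.pairwise_map, ← List.isChain_iff_pairwise, ← zip_tail_iff]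
      intro c hc
      exact t3 c hc
    · intro x hx
      rw [List.mem_map] at hx
      obtain ⟨i, hi, rfl⟩ := hx
      exact (point_spec (t1 i (mem_sg hi)).1).2.1
  · -- the strips
    refine ⟨(List.range m).map (fun b => ((blk ls M b).map g, eb ls ρ b)),
      π.map (fun b => ((blk ls M b).map g, eb ls ρ b)), ?_, hπ.map _, ?_, ?_⟩
    · intro b hb
      rw [List.mem_map] at hb
      obtain ⟨j, hj, rfl⟩ := hb
      rw [List.mem_range] at hj
      simp only [List.length_map]
      rw [blk_eq v2.le, List.length_range']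
      apply v1
      rw [List.getD_eq_getElem _ _ hj]
      exact List.getElem_mem _
    · rw [← hfl, List.map_flatMap, List.flatMap_def, List.map_map]
      rfl
    · rw [sg, List.map_flatMap, List.flatMap_def, List.map_map]
      congr 1
      apply List.map_congr_left
      intro b hb
      have hbm : b ∈ List.range m := hπ.mem_iff.1 hb
      simp only [Function.comp, place]
      by_cases he : eb ls ρ b = true
      · rw [if_pos he, if_pos he, rc, List.map_map, List.map_reverse]
        congr 1
        apply List.map_congr_left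
        intro i hi
        rw [hgh i (mem_blk hi), if_pos]
        · rfl
        · have := v6 b hbm i hi
          rw [he, decide_eq_true_eq] at this
          exact this
      · rw [if_neg he, if_neg he]
        apply List.map_congr_left
        intro i hi
        rw [hgh i (mem_blk hi), if_neg]
        have := v6 b hbm i hi
        rw [Bool.not_eq_true] at he
        rw [he, decide_eq_false_iff_not] at this
        exact this
  · simpa using v3

/-- a long chain gives a common subsequence -/
theorem chain_sub {G H : List (ℕ × Bool)} {k x : ℕ} (h : x ∈ lev (sp G H) (k + 1)) :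
    ∃ S : List (ℕ × Bool), S.Sublist G ∧ S.Sublist H ∧ S.length = k + 2 := by
  obtain ⟨c, hc1, hc2, hc3⟩ := chain_of_lev _ _ h
  set L := (x :: c).reverse with hL
  have hLp : L.Pairwise (fun a b => a < b ∧ (sp G H).getD a 0 < (sp G H).getD b 0) := by
    rw [hL, List.pairwise_reverse]; exact hc2
  have hLlt : ∀ a ∈ L, a < (pl G H).length := by
    intro a ha
    rw [← sp_length G H]
    exact hc3 a (by rw [hL, List.mem_reverse] at ha; exact ha)
  have hLlen : L.length = k + 2 := by rw [hL, List.length_reverse, hc1]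
  have hmem : ∀ a ∈ L, (pl G H).getD a (0, 0) ∈ pl G H := by
    intro a ha
    rw [List.getD_eq_getElem _ _ (hLlt a ha)]
    exact List.getElem_mem _
  refine ⟨L.map (fun a => G.getD ((pl G H).getD a (0, 0)).1 (0, true)), ?_, ?_, ?_⟩
  · have h1 : L.map (fun a => G.getD ((pl G H).getD a (0, 0)).1 (0, true)) =
        (L.map (fun a => ((pl G H).getD a (0, 0)).1)).map (fun x => G.getD x (0, true)) := by
      rw [List.map_map]; rfl
    rw [h1]
    apply sub_of_inc
    · rw [List.pairwise_map]
      refine List.Pairwise.imp_of_mem ?_ hLp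
      intro a b ha hb hab
      have h2 := hab.2
      rw [sp_getD (hLlt a ha), sp_getD (hLlt b hb)] at h2
      rcases pl_lt hab.1 (hLlt b hb) with h3 | h3
      · exact h3
      · omega
    · intro y hy
      obtain ⟨a, ha, rfl⟩ := List.mem_map.1 hy
      exact (mem_pl.1 (hmem a ha)).1
  · have h1 : L.map (fun a => G.getD ((pl G H).getD a (0, 0)).1 (0, true)) =
        (L.map (fun a => ((pl G H).getD a (0, 0)).2)).map (fun x => H.getD x (0, true)) := by
      rw [List.map_map]
      apply List.map_congr_left
      intro a ha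
      exact (mem_pl.1 (hmem a ha)).2.2
    rw [h1]
    apply sub_of_inc
    · rw [List.pairwise_map]
      refine List.Pairwise.imp_of_mem ?_ hLp
      intro a b ha hb hab
      have h2 := hab.2
      rw [sp_getD (hLlt a ha), sp_getD (hLlt b hb)] at h2
      exact h2
    · intro y hy
      obtain ⟨a, ha, rfl⟩ := List.mem_map.1 hy
      exact (mem_pl.1 (hmem a ha)).2.1
  · rw [List.length_map, hLlen]

theorem sound_direct {G₁ G₂ : List (ℕ × Bool)} {k x : ℕ} (h : x ∈ lev (sp G₁ G₂) (k + 1)) :
    SignedStripRecovery G₁ G₂ k := by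
  obtain ⟨S, h1, h2, h3⟩ := chain_sub h
  exact ⟨S, S, h1, h2, ⟨[(S, false)], [(S, false)], by simp [h3], List.Perm.refl _, by simp,
    by simp [place]⟩, by omega⟩

theorem sound_reversed {G₁ G₂ : List (ℕ × Bool)} {k x : ℕ}
    (h : x ∈ lev (sp G₁ (rc G₂)) (k + 1)) : SignedStripRecovery G₁ G₂ k := by
  obtain ⟨S, h1, h2, h3⟩ := chain_sub h
  have h4 := rc_sublist h2
  rw [rc_rc] at h4
  exact ⟨S, rc S, h1, h4, ⟨[(S, true)], [(S, true)], by simp [h3], List.Perm.refl _, by simp,
    by simp [place]⟩, by omega⟩

end Pool.Agent.KS6_49.MS
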