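import Pool.Agent.KS6_49.L8.R553.HP.TwoSat

set_option autoImplicit false

/-!
# Systems of binary constraints on integers, decided by 2-SAT

A system has variables `0, …, M - 1` with values in `0, …, N - 1`. A half line of a variable `i` is
coded by a triple `(i, a, d)`: the values at least `a` (`d = true`) or at most `a` (`d = false`).
-/

namespace Pool.Agent.KS6_49.MS

open Pool.Agent.R553.HP

/-- `t` lies in the half line -/
def Holds (t : ℕ → ℕ) (u : ℕ × ℕ × Bool) : Prop :=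
  if u.2.2 = true then u.2.1 ≤ t u.1 else t u.1 ≤ u.2.1

/-- all triples -/
def trip (M N : ℕ) : List (ℕ × ℕ × Bool) :=
  (List.range M).flatMap (fun i => (List.range N).flatMap (fun a => [(i, a, true), (i, a, false)]))

theorem mem_trip {M N : ℕ} {u : ℕ × ℕ × Bool} : u ∈ trip M N ↔ u.1 < M ∧ u.2.1 < N := by
  obtain ⟨i, a, d⟩ := u
  simp only [trip, List.mem_flatMap, List.mem_range, List.mem_cons, List.not_mem_nil, or_false,
    Prod.mk.injEq]
  constructor
  · rintro ⟨i', hi, a', ha, h | h⟩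
    · obtain ⟨rfl, rfl, rfl⟩ := h; exact ⟨hi, ha⟩
    · obtain ⟨rfl, rfl, rfl⟩ := h; exact ⟨hi, ha⟩
  · rintro ⟨hi, ha⟩
    refine ⟨i, hi, a, ha, ?_⟩
    cases d <;> simp

/-- the negation of a literal; the literal `(i, a, true)` says that the value of `i` is at least
`a`, and `(i, a, false)` says that it is smaller than `a` -/
def ng (x : ℕ × ℕ × Bool) : ℕ × ℕ × Bool := (x.1, x.2.1, !x.2.2)

/-- the half line of a literal -/
def un (x : ℕ × ℕ × Bool) : ℕ × ℕ × Bool := if x.2.2 = true then x else (x.1, x.2.1 - 1, false)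

/-- the literal of a half line -/
def lt (u : ℕ × ℕ × Bool) : ℕ × ℕ × Bool := if u.2.2 = true then u else (u.1, u.2.1 + 1, false)

/-- the literal is the literal of a half line -/
def Okl (N : ℕ) (x : ℕ × ℕ × Bool) : Prop := if x.2.2 = true then x.2.1 < N else 1 ≤ x.2.1

/-- the implications -/
def Imp (N : ℕ) (E : ℕ × ℕ × Bool → ℕ × ℕ × Bool → Prop) (x y : ℕ × ℕ × Bool) : Prop :=
  (Okl N x ∧ Okl N (ng y) ∧ (E (un x) (un (ng y)) ∨ E (un (ng y)) (un x))) ∨
  (x.2.1 = 0 ∧ x.2.2 = false ∧ y = ng x) ∨ (x.2.1 = N ∧ x.2.2 = true ∧ y = ng x)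

theorem ng_ng (x : ℕ × ℕ × Bool) : ng (ng x) = x := by simp [ng]

theorem ng_ne (x : ℕ × ℕ × Bool) : ng x ≠ x := by
  intro h
  have := congrArg (fun z => z.2.2) h
  simp [ng] at this

theorem un_lt (u : ℕ × ℕ × Bool) : un (lt u) = u := by
  obtain ⟨i, a, d⟩ := u
  cases d <;> simp [un, lt]

theorem okl_lt {N : ℕ} {u : ℕ × ℕ × Bool} (h : u.2.1 < N) : Okl N (lt u) := by
  obtain ⟨i, a, d⟩ := u
  cases d
  · simp [Okl, lt]
  · simpa [Okl, lt] using h

theorem imp_symm {N : ℕ} {E : ℕ × ℕ × Bool → ℕ × ℕ × Bool → Prop} {x y : ℕ × ℕ × Bool}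
    (h : Imp N E x y) : Imp N E (ng y) (ng x) := by
  rcases h with ⟨h1, h2, h3⟩ | ⟨h1, h2, rfl⟩ | ⟨h1, h2, rfl⟩
  · left
    rw [ng_ng]
    exact ⟨h2, h1, h3.symm⟩
  · right; left
    rw [ng_ng]
    exact ⟨h1, h2, rfl⟩
  · right; right
    rw [ng_ng]
    exact ⟨h1, h2, rfl⟩

/-- the literals -/
def lits (M N : ℕ) : List (ℕ × ℕ × Bool) := trip M (N + 1)

/-- there is no contradictory cycle of implications -/
def Consistent (M N : ℕ) (E : ℕ × ℕ × Bool → ℕ × ℕ × Bool → Prop) : Prop :=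
  ∀ x ∈ lits M N, ¬ (Rch (lits M N) (Imp N E) x (ng x) ∧ Rch (lits M N) (Imp N E) (ng x) x)

theorem ng_mem {M N : ℕ} : ∀ x ∈ lits M N, ng x ∈ lits M N := by
  intro x hx
  unfold lits at hx ⊢
  rw [mem_trip] at hx ⊢
  exact hx

theorem consistent_iff {M N : ℕ} {E : ℕ × ℕ × Bool → ℕ × ℕ × Bool → Prop} :
    Consistent M N E ↔ ∃ T : Set (ℕ × ℕ × Bool), (∀ x ∈ lits M N, x ∈ T ∨ ng x ∈ T) ∧
      ∀ x ∈ lits M N, ∀ y ∈ lits M N, Imp N E x y → x ∈ T → ng y ∉ T :=
  (twoSat (S := lits M N) (neg := ng) (r := Imp N E) ng_mem (fun x _ => ng_ng x)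
    (fun x _ => ng_ne x) (fun _ _ _ _ h => imp_symm h)).symm

/-- a solution gives consistency -/
theorem consistent_of_sol {M N : ℕ} {E : ℕ × ℕ × Bool → ℕ × ℕ × Bool → Prop} (t : ℕ → ℕ)
    (ht : ∀ i < M, t i < N)
    (hE : ∀ u v, u.1 < M → v.1 < M → u.2.1 < N → v.2.1 < N → E u v → Holds t u → ¬ Holds t v) :
    Consistent M N E := by
  rw [consistent_iff]
  set T : Set (ℕ × ℕ × Bool) := {x | if x.2.2 = true then x.2.1 ≤ t x.1 else t x.1 < x.2.1} with hT
  have h0 : ∀ x ∈ T, Okl N x → Holds t (un x) ∧ (un x).1 = x.1 ∧ (x.2.1 ≤ N → (un x).2.1 < N) := by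
    rintro ⟨i, a, d⟩ hx hok
    cases d
    · have h1 : t i < a := by simpa [hT] using hx
      have h2 : 1 ≤ a := by simpa [Okl] using hok
      refine ⟨?_, rfl, ?_⟩
      · simp only [Holds, un]
        simp only [Bool.false_eq_true, if_false]
        omega
      · simp only [un, Bool.false_eq_true, if_false]
        omega
    · have h1 : a ≤ t i := by simpa [hT] using hx
      have h2 : a < N := by simpa [Okl] using hok
      refine ⟨by simpa [Holds, un] using h1, rfl, fun _ => by simpa [un] using h2⟩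
  refine ⟨T, ?_, ?_⟩
  · rintro ⟨i, a, d⟩ _
    rcases Nat.lt_or_ge (t i) a with h | h
    · cases d
      · left; simpa [hT] using h
      · right; simpa [hT, ng] using h
    · cases d
      · right; simpa [hT, ng] using h
      · left; simpa [hT] using h
  · intro x hx y hy hxy hxT hyT
    unfold lits at hx hy
    rw [mem_trip] at hx hy
    rcases hxy with ⟨h1, h2, h3⟩ | ⟨h1, h2, rfl⟩ | ⟨h1, h2, rfl⟩
    · obtain ⟨a1, a2, a3⟩ := h0 x hxT h1
      obtain ⟨b1, b2, b3⟩ := h0 _ hyT h2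
      have c1 : (un x).2.1 < N := a3 (by omega)
      have c2 : (un (ng y)).2.1 < N := b3 (by simp only [ng]; omega)
      have d1 : (un x).1 < M := by rw [a2]; exact hx.1
      have d2 : (un (ng y)).1 < M := by rw [b2]; exact hy.1
      rcases h3 with h3 | h3
      · exact hE _ _ d1 d2 c1 c2 h3 a1 b1
      · exact hE _ _ d2 d1 c2 c1 h3 b1 a1
    · have h4 : t x.1 < x.2.1 := by simpa [hT, h2] using hxT
      omega
    · have h4 : x.2.1 ≤ t x.1 := by simpa [hT, h2] using hxT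
      have := ht x.1 hx.1
      omega

/-- consistency gives values which violate no constraint -/
theorem sol_of_consistent {M N : ℕ} {E : ℕ × ℕ × Bool → ℕ × ℕ × Bool → Prop}
    (h : Consistent M N E) : ∃ t : ℕ → ℕ, (∀ i < M, t i < N) ∧
      ∀ u v, u.1 < M → v.1 < M → E u v → t u.1 = u.2.1 → t v.1 ≠ v.2.1 := by
  classical
  obtain ⟨T, hT1, hT2⟩ := consistent_iff.1 h
  have hl : ∀ i < M, ∀ a ≤ N, ∀ d, (i, a, d) ∈ lits M N := by
    intro i hi a ha d
    unfold lits
    rw [mem_trip]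
    exact ⟨hi, by simp only; omega⟩
  set t : ℕ → ℕ := fun i => Nat.findGreatest (fun a => (i, a, true) ∈ T) N with ht
  have h0 : ∀ i < M, (i, 0, true) ∈ T := by
    intro i hi
    rcases hT1 _ (hl i hi 0 (Nat.zero_le _) true) with h1 | h1
    · exact h1
    · exact absurd h1 (hT2 _ (hl i hi 0 (Nat.zero_le _) false) _ (hl i hi 0 (Nat.zero_le _) true)
        (Or.inr (Or.inl ⟨rfl, rfl, rfl⟩)) h1)
  have h1 : ∀ i < M, (i, t i, true) ∈ T := fun i hi =>
    Nat.findGreatest_spec (P := fun a => (i, a, true) ∈ T) (Nat.zero_le N) (h0 i hi)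
  have h2 : ∀ i < M, t i < N := by
    intro i hi
    have h3 : t i ≤ N := Nat.findGreatest_le N
    rcases Nat.lt_or_ge (t i) N with h4 | h4
    · exact h4
    · exfalso
      have h5 : t i = N := le_antisymm h3 h4
      have h6 := h1 i hi
      rw [h5] at h6
      exact hT2 _ (hl i hi N le_rfl true) _ (hl i hi N le_rfl false)
        (Or.inr (Or.inr ⟨rfl, rfl, rfl⟩)) h6 h6
  have h3 : ∀ i < M, (i, t i + 1, false) ∈ T := by
    intro i hi
    have h4 := h2 i hi
    rcases hT1 _ (hl i hi (t i + 1) (by omega) false) with h5 | h5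
    · exact h5
    · exfalso
      have h6 : (i, t i + 1, true) ∈ T := h5
      have h7 := Nat.le_findGreatest (P := fun a => (i, a, true) ∈ T) (m := t i + 1) (n := N)
        (by omega) h6
      have h8 : t i + 1 ≤ t i := h7
      omega
  refine ⟨t, h2, ?_⟩
  rintro ⟨i, a, d⟩ ⟨j, b, e⟩ hi hj hE hia hjb
  simp only at hi hj hia hjb
  have key : ∀ i < M, ∀ d, lt (i, t i, d) ∈ T ∧ lt (i, t i, d) ∈ lits M N := by
    intro i hi d
    cases d
    · exact ⟨h3 i hi, hl i hi (t i + 1) (h2 i hi) false⟩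
    · exact ⟨h1 i hi, hl i hi (t i) (h2 i hi).le true⟩
  subst hia
  subst hjb
  obtain ⟨k1, k2⟩ := key i hi d
  obtain ⟨k3, k4⟩ := key j hj e
  have h5 : Imp N E (lt (i, t i, d)) (ng (lt (j, t j, e))) := by
    left
    rw [ng_ng, un_lt, un_lt]
    exact ⟨okl_lt (h2 i hi), okl_lt (h2 j hj), Or.inl hE⟩
  have h6 := hT2 _ k2 _ (ng_mem _ k4) h5 k1
  rw [ng_ng] at h6
  exact h6 k3

end Pool.Agent.KS6_49.MS
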